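import Pool.Agent.P.MP_aef18a_nt.Core

namespace Pool.Agent.P.MP_aef18a_nt

open Polynomial LaurentPolynomial

lemma elim_one {D : Type*} [CommRing D] [IsDomain D] {F A : D[T;T⁻¹]} (hF : Prime F)
    (hA : ¬ F ∣ A) : ∃ d : D, d ≠ 0 ∧ LaurentPolynomial.C d ∈ Ideal.span {F, A} := by
  let I : Ideal D[T;T⁻¹] := Ideal.span {F}
  have : I.IsPrime := (Ideal.span_singleton_prime hF.ne_zero).mpr hF
  let π := Ideal.Quotient.mkₐ D I
  have hπF : π F = 0 := Ideal.Quotient.eq_zero_iff_mem.mpr (Ideal.mem_span_singleton_self F)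
  have h1 : ∀ p : D[X], aeval (T 1 : D[T;T⁻¹]) p = toLaurent p := by
    intro p
    have : (aeval (T 1 : D[T;T⁻¹]) : D[X] →ₐ[D] D[T;T⁻¹]) = toLaurentAlg := by
      ext; simp
    rw [this]; rfl
  have a1 : IsAlgebraic D (π (T 1)) := by
    obtain ⟨p, j, hp, hp0⟩ := exists_poly hF.ne_zero
    refine ⟨p, by rintro rfl; simp at hp0, ?_⟩
    rw [aeval_algHom_apply, h1, hp, map_mul, hπF, zero_mul]
  have a2 : IsAlgebraic D (π (T (-1))) := by
    obtain ⟨p, j, hp, hp0⟩ := exists_poly (f := invert F) (by simpa using hF.ne_zero)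
    refine ⟨p, by rintro rfl; simp at hp0, ?_⟩
    rw [aeval_algHom_apply, ← invert_T, aeval_algHom_apply, h1, hp, map_mul, map_mul,
      involutive_invert F, hπF, zero_mul]
  have a3 : ∀ B, IsAlgebraic D (π B) := by
    intro B
    induction B using LaurentPolynomial.induction_on' with
    | add p q hp hq => rw [map_add]; exact hp.add hq
    | C_mul_T n a =>
      rw [map_mul]
      refine IsAlgebraic.mul ?_ ?_
      · rw [LaurentPolynomial.C_eq_algebraMap, AlgHom.commutes]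
        exact isAlgebraic_algebraMap a
      · obtain ⟨k, rfl | rfl⟩ := Int.eq_nat_or_neg n
        · have := a1.pow k
          rwa [← map_pow, T_pow, mul_one] at this
        · have := a2.pow k
          rwa [← map_pow, T_pow, mul_neg, mul_one] at this
  have hA0 : π A ≠ 0 := fun h =>
    hA (Ideal.mem_span_singleton.mp (Ideal.Quotient.eq_zero_iff_mem.mp h))
  have := Ideal.comap_ne_bot_of_algebraic_mem hA0 (Ideal.mem_span_singleton_self (π A)) (a3 A)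
  obtain ⟨d, hd, hd0⟩ := Submodule.exists_mem_ne_zero_of_ne_bot this
  refine ⟨d, hd0, ?_⟩
  obtain ⟨y, hy⟩ := Ideal.mem_span_singleton'.mp (Ideal.mem_comap.mp hd)
  obtain ⟨y, rfl⟩ := Ideal.Quotient.mkₐ_surjective D I y
  have : π (LaurentPolynomial.C d - y * A) = 0 := by
    rw [map_sub, map_mul, hy, LaurentPolynomial.C_eq_algebraMap, AlgHom.commutes, sub_self]
  obtain ⟨z, hz⟩ := Ideal.mem_span_singleton'.mp (Ideal.Quotient.eq_zero_iff_mem.mp this)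
  exact Ideal.mem_span_pair.mpr ⟨z, y, by rw [hz]; ring⟩

lemma elim_two {F A : LP 2} (hF : Irreducible F) (hA : ¬ F ∣ A) (ε : (Fin 2 → ℤ) ≃+ ℤ × ℤ) :
    ∃ r : ℚ[X], r ≠ 0 ∧ ∀ φ : LP 2 →+* ℂ, φ F = 0 → φ A = 0 →
      aeval (φ (AddMonoidAlgebra.single (ε.symm (0, 1)) 1)) r = 0 := by
  let e : LP 2 ≃+* (ℚ[T;T⁻¹])[T;T⁻¹] :=
    (AddMonoidAlgebra.mapDomainRingEquiv ℚ ε).trans AddMonoidAlgebra.curryRingEquiv
  have u1 : UniqueFactorizationMonoid ℚ[T;T⁻¹] :=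
    .of_isLocalization (Submonoid.powers (X : ℚ[X])) _
  have u2 : UniqueFactorizationMonoid (ℚ[T;T⁻¹])[T;T⁻¹] :=
    .of_isLocalization (Submonoid.powers (X : (ℚ[T;T⁻¹])[X])) _
  have hp : Prime (e F) := ((MulEquiv.irreducible_iff e).mpr hF).prime
  have hA' : ¬ e F ∣ e A := by rwa [map_dvd_iff]
  obtain ⟨d, hd, hmem⟩ := elim_one hp hA'
  obtain ⟨r, j, hr, hr0⟩ := exists_poly hd
  refine ⟨r, by rintro rfl; simp at hr0, fun φ h1 h2 => ?_⟩
  let ψ : ℚ[T;T⁻¹] →+* ℂ := (φ.comp e.symm.toRingHom).comp LaurentPolynomial.C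
  have hψ : ψ d = 0 := by
    obtain ⟨x, y, hxy⟩ := Ideal.mem_span_pair.mp hmem
    simp only [ψ, RingHom.comp_apply, ← hxy, map_add, map_mul]
    simp [h1, h2]
  have : (ψ.comp toLaurent : ℚ[X] →+* ℂ) =
      (aeval (φ (AddMonoidAlgebra.single (ε.symm (0, 1)) 1)) : ℚ[X] →ₐ[ℚ] ℂ) := by
    refine Polynomial.ringHom_ext' (RingHom.ext_rat _ _) ?_
    simp only [ψ, RingHom.comp_apply, toLaurent_X, RingHom.coe_coe, aeval_X]
    congr 1
    apply e.injective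
    simp only [RingEquiv.toRingHom_eq_coe, RingHom.coe_coe, RingEquiv.apply_symm_apply]
    simp only [e, RingEquiv.trans_apply, AddMonoidAlgebra.mapDomainRingEquiv_single,
      AddEquiv.apply_symm_apply, AddMonoidAlgebra.curryRingEquiv_single]
    rfl
  have h3 := congrArg (fun f : ℚ[X] →+* ℂ => f r) this
  simp only [RingHom.comp_apply, RingHom.coe_coe] at h3
  rw [← h3, hr, map_mul, hψ, zero_mul]

/-- evaluation of `A(t^a)` at `t = α` -/
noncomputable def ev {n : ℕ} (a : Fin n → ℤ) (α : ℂˣ) : LP n →+* ℂ :=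
  (LaurentPolynomial.eval₂ (algebraMap ℚ ℂ) α).comp (specHom a)

lemma ev_single {n : ℕ} (a : Fin n → ℤ) (α : ℂˣ) (u : Fin n → ℤ) (r : ℚ) :
    ev a α (AddMonoidAlgebra.single u r) = r * (α : ℂ) ^ (u ⬝ᵥ a) := by
  rw [ev, RingHom.comp_apply, specHom_apply, spec, AddMonoidAlgebra.mapDomain_single,
    single_eq_C_mul_T, eval₂_C_mul_T]
  simp

lemma common {F A : LP 2} (hF : Irreducible F) (hA : ¬ F ∣ A) :
    ∃ Γ : Finset (Fin 2 → ℤ), 0 ∉ Γ ∧ ∀ a, a ≠ 0 → (∀ c ∈ Γ, c ⬝ᵥ a ≠ 0) → ∀ α : ℂˣ,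
      ev a α F = 0 → ev a α A = 0 → ∃ m, 0 < m ∧ (α : ℂ) ^ m = 1 := by
  classical
  let ε₁ : (Fin 2 → ℤ) ≃+ ℤ × ℤ := (LinearEquiv.finTwoArrow ℤ ℤ).toAddEquiv
  obtain ⟨r₁, hr₁, h₁⟩ := elim_two hF hA ε₁
  obtain ⟨r₀, hr₀, h₀⟩ := elim_two hF hA (ε₁.trans AddEquiv.prodComm)
  let P : ℂ × ℂ → (Fin 2 → ℤ) → Prop := fun ξ a => a ≠ 0 ∧ ∃ β : ℂˣ,
    (¬ ∃ m, 0 < m ∧ (β : ℂ) ^ m = 1) ∧ (β : ℂ) ^ a 0 = ξ.1 ∧ (β : ℂ) ^ a 1 = ξ.2
  let ch : ℂ × ℂ → (Fin 2 → ℤ) := fun ξ =>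
    if h : ∃ a, P ξ a then ![h.choose 1, -h.choose 0] else ![1, 0]
  refine ⟨((r₀.aroots ℂ).toFinset ×ˢ (r₁.aroots ℂ).toFinset).image ch, ?_, ?_⟩
  · intro h
    obtain ⟨ξ, -, e⟩ := Finset.mem_image.mp h
    simp only [ch] at e
    split_ifs at e with h'
    · apply h'.choose_spec.1
      have e0 := congrFun e 0
      have e1 := congrFun e 1
      ext i
      fin_cases i
      · simpa using e1
      · simpa using e0
    · simpa using congrFun e 0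
  intro a ha hΓ α e1 e2
  by_contra hα
  have hP : ∃ a', P ((α : ℂ) ^ a 0, (α : ℂ) ^ a 1) a' := ⟨a, ha, α, hα, rfl, rfl⟩
  refine hΓ (ch ((α : ℂ) ^ a 0, (α : ℂ) ^ a 1)) (Finset.mem_image_of_mem _ ?_) ?_
  · have k0 := h₀ _ e1 e2
    have k1 := h₁ _ e1 e2
    rw [ev_single] at k0 k1
    simp only [Finset.mem_product, Multiset.mem_toFinset, mem_aroots]
    refine ⟨⟨hr₀, ?_⟩, hr₁, ?_⟩
    · convert k0 using 2
      simp [ε₁, dotProduct, AddEquiv.prodComm]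
    · convert k1 using 2
      simp [ε₁, dotProduct]
  · simp only [ch, dif_pos hP]
    obtain ⟨-, β, hβ, b0, b1⟩ := hP.choose_spec
    set a' := hP.choose
    by_contra hne
    apply hβ
    have key : (β : ℂ) ^ (a' 1 * a 0 + -a' 0 * a 1) = 1 := by
      simp only at b0 b1
      rw [zpow_add₀ β.ne_zero, zpow_mul, b1, neg_mul, zpow_neg, zpow_mul, b0, ← zpow_mul,
        ← zpow_mul, mul_comm (a 1), mul_inv_cancel₀ (zpow_ne_zero _ α.ne_zero)]
    have hne' : a' 1 * a 0 + -a' 0 * a 1 ≠ 0 := by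
      simpa [dotProduct] using hne
    refine ⟨(a' 1 * a 0 + -a' 0 * a 1).natAbs, Int.natAbs_pos.mpr hne', ?_⟩
    rw [← zpow_natCast, Int.natCast_natAbs]
    rcases abs_choice (a' 1 * a 0 + -a' 0 * a 1) with h | h
    · rw [h, key]
    · rw [h, zpow_neg, key, inv_one]

end Pool.Agent.P.MP_aef18a_nt
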