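import Mathlib

namespace Pool.Agent.P.MP_aef18a_nt

open Polynomial Matrix

/-- Laurent polynomials in `n` variables over `ℚ`. -/
abbrev LP (n : ℕ) := AddMonoidAlgebra ℚ (Fin n → ℤ)

/-- `F(x^M)`: each `x_i` is replaced by `∏_j x_j^(M i j)`, so `x^u` becomes `x^(u M)`. -/
noncomputable def subst {n : ℕ} (M : Matrix (Fin n) (Fin n) ℤ) (F : LP n) : LP n :=
  AddMonoidAlgebra.mapDomain (fun u => u ᵥ* M) F

/-- `F(t^a) = F(t^(a 1), …, t^(a n))`. -/
noncomputable def spec {n : ℕ} (a : Fin n → ℤ) (F : LP n) : LaurentPolynomial ℚ :=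
  AddMonoidAlgebra.mapDomain (fun u => u ⬝ᵥ a) F

/-- `g = f / cyc f` up to a unit: `f` is associate to `g` times a product of cyclotomic
polynomials, and no cyclotomic polynomial divides `g`. -/
def IsStar (f g : LaurentPolynomial ℚ) : Prop :=
  (∃ s : Multiset ℕ, (∀ m ∈ s, 0 < m) ∧
    Associated f (g * (s.map fun m => toLaurent (cyclotomic m ℚ)).prod)) ∧
  ∀ m, 0 < m → ¬ toLaurent (cyclotomic m ℚ) ∣ g

/-- The conclusion of Schinzel's conjecture for `F`. -/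
def Schinzel {n : ℕ} (F : LP n) : Prop :=
  ∃ Γ : Finset (Fin n → ℤ), 0 ∉ Γ ∧
  ∃ Ω : Finset (Matrix (Fin n) (Fin n) ℤ), (∀ M ∈ Ω, M.det ≠ 0) ∧
  ∀ a : Fin n → ℤ, (∃ c ∈ Γ, c ⬝ᵥ a = 0) ∨
    ∃ M ∈ Ω, ∃ b : Fin n → ℤ, a = M *ᵥ b ∧
      ∀ (s : Finset (LP n)) (e : LP n → ℕ), (∀ P ∈ s, Irreducible P ∧ 0 < e P) →
        (s : Set (LP n)).Pairwise (fun P Q => ¬ Associated P Q) →
        Associated (subst M F) (∏ P ∈ s, P ^ e P) →
        ∃ (g : LaurentPolynomial ℚ) (p : LP n → LaurentPolynomial ℚ), IsStar (spec a F) g ∧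
          (∀ P ∈ s, IsStar (spec b P) (p P) ∧ Irreducible (p P)) ∧
          (s : Set (LP n)).Pairwise (fun P Q => ¬ Associated (p P) (p Q)) ∧
          Associated g (∏ P ∈ s, p P ^ e P)

/-- An exponent vector as a point of `ℝ^n`. -/
def pt {n : ℕ} (u : Fin n → ℤ) : Fin n → ℝ := fun i => (u i : ℝ)

/-- The Newton polytope of `F`. -/
def newt {n : ℕ} (F : LP n) : Set (Fin n → ℝ) :=
  convexHull ℝ (pt '' (F.coeff.support : Set (Fin n → ℤ)))

end Pool.Agent.P.MP_aef18a_nt
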