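import Pool.Agent.P.MP_aef18a_nt.Pattern
import Pool.Agent.P.MP_aef18a_nt.Defs

namespace Pool.Agent.P.MP_aef18a_nt

open Polynomial LaurentPolynomial

lemma coeff_toLaurent_nat {R : Type*} [CommRing R] (p : R[X]) (k : ℕ) :
    (toLaurent p).coeff (k : ℤ) = p.coeff k := by
  rw [coeff_toLaurent]
  exact Finsupp.mapDomain_apply Nat.castEmbedding.injective _ k

lemma dv_top {k : ℤ} {p : ℤ[X]} (hp : p ≠ 0) :
    Dv k (toLaurent p) (Int.castAddHom ℝ) ↔ k ∣ p.leadingCoeff := by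
  unfold Dv
  rw [support_coeff_toLaurent]
  simp only [Finset.forall_mem_map, Nat.castEmbedding_apply, Int.coe_castAddHom, Int.cast_natCast,
    Nat.cast_le, coeff_toLaurent_nat]
  constructor
  · intro h
    exact h _ (natDegree_mem_support_of_nonzero hp) fun u hu => le_natDegree_of_mem_supp u hu
  · intro h u hu hm
    have : u = p.natDegree :=
      le_antisymm (le_natDegree_of_mem_supp u hu) (hm _ (natDegree_mem_support_of_nonzero hp))
    rw [this]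
    exact h

lemma dv_bot {k : ℤ} {p : ℤ[X]} (hp : p.coeff 0 ≠ 0) :
    Dv k (toLaurent p) (-Int.castAddHom ℝ : ℤ →+ ℝ) ↔ k ∣ p.coeff 0 := by
  unfold Dv
  rw [support_coeff_toLaurent]
  simp only [Finset.forall_mem_map, Nat.castEmbedding_apply, AddMonoidHom.neg_apply,
    Int.coe_castAddHom, Int.cast_natCast, neg_le_neg_iff, Nat.cast_le, coeff_toLaurent_nat]
  constructor
  · intro h
    exact h _ (mem_support_iff.mpr hp) fun u _ => Nat.zero_le u
  · intro h u _ hm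
    have : u = 0 := Nat.le_zero.mp (hm _ (mem_support_iff.mpr hp))
    rw [this]
    exact h

lemma dv_mul_T {k : ℤ} {f : ℤ[T;T⁻¹]} (hf : f ≠ 0) (j : ℤ) (ω : ℤ →+ ℝ) :
    Dv k (f * T j) ω ↔ Dv k f ω := by
  have key : ∀ (f : ℤ[T;T⁻¹]) (j : ℤ), f ≠ 0 → Dv k f ω → Dv k (f * T j) ω := by
    intro f j hf h
    have := dv_mul ω hf (isUnit_T j).ne_zero h (l := 1) (fun _ _ _ => one_dvd _)
    rwa [mul_one] at this
  refine ⟨fun h => ?_, key f j hf⟩
  have := key _ (-j) (mul_ne_zero hf (isUnit_T j).ne_zero) h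
  rwa [mul_T_assoc, add_neg_cancel, T_zero, mul_one] at this

lemma exists_poly {R : Type*} [CommRing R] {f : R[T;T⁻¹]} (hf : f ≠ 0) :
    ∃ (p : R[X]) (j : ℤ), toLaurent p = f * T j ∧ p.coeff 0 ≠ 0 := by
  obtain ⟨n, f', h⟩ := exists_T_pow f
  have hf' : f' ≠ 0 := by
    rintro rfl
    rw [map_zero] at h
    exact hf ((isUnit_T (n : ℤ)).mul_left_eq_zero.mp h.symm)
  obtain ⟨p, hp, hX⟩ := exists_eq_pow_rootMultiplicity_mul_and_not_dvd f' hf' 0
  simp only [map_zero, sub_zero] at hp hX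
  refine ⟨p, n - (rootMultiplicity 0 f' : ℕ), ?_, fun h0 => hX (X_dvd_iff.mpr h0)⟩
  set r := rootMultiplicity 0 f'
  rw [hp, map_mul, toLaurent_X_pow] at h
  rw [T_sub, ← mul_assoc, ← h, mul_comm (T _), mul_T_assoc, add_neg_cancel, T_zero, mul_one]

lemma cyc_prod {p : ℚ[X]} (hp : p ≠ 0) (h : ∀ α : ℂ, aeval α p = 0 → ∃ m, 0 < m ∧ α ^ m = 1) :
    ∃ s : Multiset ℕ, (∀ m ∈ s, 0 < m) ∧ Associated p (s.map fun m => cyclotomic m ℚ).prod := by
  induction p using UniqueFactorizationMonoid.induction_on_prime with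
  | h₁ => exact absurd rfl hp
  | h₂ x hx => exact ⟨0, by simp, by simpa using associated_one_iff_isUnit.mpr hx⟩
  | h₃ a π ha hπ ih =>
    obtain ⟨s, hs, has⟩ := ih ha fun α hα => h α (by rw [map_mul, hα, mul_zero])
    have hdeg : π.degree ≠ 0 := fun h0 => hπ.not_isUnit (isUnit_iff_degree_eq_zero.mpr h0)
    obtain ⟨α, hα⟩ := IsAlgClosed.exists_aeval_eq_zero ℂ π hdeg
    obtain ⟨m, hm, hαm⟩ := h α (by rw [map_mul, hα, zero_mul])
    have hfin : IsOfFinOrder α := isOfFinOrder_iff_pow_eq_one.mpr ⟨m, hm, hαm⟩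
    have hpos := hfin.orderOf_pos
    have hmin := cyclotomic_eq_minpoly_rat (IsPrimitiveRoot.orderOf α) hpos
    have hd : cyclotomic (orderOf α) ℚ ∣ π := hmin ▸ minpoly.dvd ℚ α hα
    have hass : Associated π (cyclotomic (orderOf α) ℚ) :=
      ((cyclotomic.irreducible_rat hpos).associated_of_dvd hπ.irreducible hd).symm
    refine ⟨orderOf α ::ₘ s, ?_, ?_⟩
    · intro m hm
      rcases Multiset.mem_cons.mp hm with rfl | hm
      exacts [hpos, hs m hm]
    · rw [Multiset.map_cons, Multiset.prod_cons]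
      exact hass.mul_mul has

lemma toLaurent_dvd_iff {π g : ℚ[X]} (hπ : Prime π) (h0 : π.coeff 0 ≠ 0) :
    toLaurent π ∣ toLaurent g ↔ π ∣ g := by
  refine ⟨fun h => ?_, fun h => map_dvd _ h⟩
  obtain ⟨c, hc⟩ := h
  obtain ⟨n, c', hc'⟩ := exists_T_pow c
  have : g * X ^ n = π * c' := by
    apply toLaurent_injective
    rw [map_mul, map_mul, toLaurent_X_pow, hc, hc', mul_assoc]
  rcases hπ.dvd_or_dvd (⟨c', this⟩ : π ∣ g * X ^ n) with h | h
  · exact h
  · exfalso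
    have := (hπ.irreducible.associated_of_dvd irreducible_X (hπ.dvd_of_dvd_pow h)).symm.dvd
    exact h0 (X_dvd_iff.mp this)

lemma irreducible_toLaurent {π : ℚ[X]} (hπ : Prime π) (h0 : π.coeff 0 ≠ 0) :
    Irreducible (toLaurent π) := by
  refine Prime.irreducible ?_
  refine (IsLocalization.toLocalizationMap (Submonoid.powers (X : ℚ[X])) ℚ[T;T⁻¹]).map_prime hπ
    (toLaurent_ne_zero.mpr hπ.ne_zero) fun hu => hπ.not_dvd_one ?_
  rw [← toLaurent_dvd_iff hπ h0]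
  exact IsUnit.dvd hu

lemma map_toLaurent (p : ℤ[X]) :
    AddMonoidAlgebra.mapRingHom ℤ (Int.castRingHom ℚ) (toLaurent p) =
      toLaurent (p.map (Int.castRingHom ℚ)) := by
  induction p using Polynomial.induction_on' with
  | add p q hp hq => simp only [map_add, Polynomial.map_add, hp, hq]
  | monomial n a =>
    rw [Polynomial.map_monomial, toLaurent_C_mul_T, toLaurent_C_mul_T, ← single_eq_C_mul_T,
      ← single_eq_C_mul_T, AddMonoidAlgebra.mapRingHom_single]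

lemma map_T (j : ℤ) : AddMonoidAlgebra.mapRingHom ℤ (Int.castRingHom ℚ) (T j) = T j := by
  unfold T
  rw [AddMonoidAlgebra.mapRingHom_single, map_one]

/-- the rational Laurent polynomial attached to an integral one -/
noncomputable def toQ {G : Type*} [AddCommGroup G] :
    AddMonoidAlgebra ℤ G →+* AddMonoidAlgebra ℚ G :=
  AddMonoidAlgebra.mapRingHom G (Int.castRingHom ℚ)

lemma spec_toQ {n : ℕ} (a : Fin n → ℤ) (F : AddMonoidAlgebra ℤ (Fin n → ℤ)) :
    spec a (toQ F) = toQ (AddMonoidAlgebra.mapDomain (· ⬝ᵥ a) F) := by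
  induction F using AddMonoidAlgebra.induction_linear with
  | zero => simp [spec]
  | add x y hx hy =>
    rw [map_add, AddMonoidAlgebra.mapDomain_add, map_add, ← hx, ← hy, spec,
      AddMonoidAlgebra.mapDomain_add]
    rfl
  | single u r =>
    rw [spec, toQ, toQ, AddMonoidAlgebra.mapRingHom_single, AddMonoidAlgebra.mapDomain_single,
      AddMonoidAlgebra.mapDomain_single, AddMonoidAlgebra.mapRingHom_single]

theorem core {n : ℕ} (hn : 2 ≤ n) {q : ℕ} (hq : q.Prime) {F : AddMonoidAlgebra ℤ (Fin n → ℤ)}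
    (hnd : ∃ u, ¬ (q : ℤ) ∣ F.coeff u)
    (hface : ∀ x : Fin n → ℝ, x ≠ 0 → Dv q F (lin x) ∧ ¬ Dv (q * q) F (lin x))
    (Γ₂ : Finset (Fin n → ℤ)) (hΓ₂ : 0 ∉ Γ₂)
    (hunit : ∀ a, (∀ c ∈ Γ₂, c ⬝ᵥ a ≠ 0) → a ≠ 0 → Set.InjOn (· ⬝ᵥ a) F.coeff.support →
      ∀ p : ℤ[X], toLaurent p ∣ AddMonoidAlgebra.mapDomain (· ⬝ᵥ a) F →
      ¬ (q : ℤ) ∣ p.leadingCoeff → ¬ (q : ℤ) ∣ p.coeff 0 →
      ∀ α : ℂ, aeval α p = 0 → ∃ m, 0 < m ∧ α ^ m = 1) :
    ∃ Γ : Finset (Fin n → ℤ), 0 ∉ Γ ∧ ∀ a, (∀ c ∈ Γ, c ⬝ᵥ a ≠ 0) →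
      ∃ g, IsStar (spec a (toQ F)) g ∧ Irreducible g := by
  classical
  have hF : F ≠ 0 := by
    rintro rfl
    obtain ⟨u, hu⟩ := hnd
    simp at hu
  have hqZ : Prime (q : ℤ) := Nat.prime_iff_prime_int.mp hq
  obtain ⟨Γ₁, hΓ₁, h1⟩ := nosplit hn hq hF hface
  refine ⟨Γ₁ ∪ Γ₂, by simp [hΓ₁, hΓ₂], fun a ha => ?_⟩
  obtain ⟨ha0, hinj, hns⟩ := h1 a fun c hc => ha c (Finset.mem_union_left _ hc)
  have hun := hunit a (fun c hc => ha c (Finset.mem_union_right _ hc)) ha0 hinj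
  set f := AddMonoidAlgebra.mapDomain (· ⬝ᵥ a) F with hfdef
  have hf : f ≠ 0 := mapDomain_ne_zero hinj hF
  obtain ⟨f₀, j, hf₀, hc₀⟩ := exists_poly hf
  have hf₀0 : f₀ ≠ 0 := by rintro rfl; simp at hc₀
  have hxa : (fun i => (a i : ℝ)) ≠ 0 := by
    intro h
    apply ha0
    ext i
    simpa using congrFun h i
  have e1 : (⇑(Int.castAddHom ℝ) ∘ fun u : Fin n → ℤ => u ⬝ᵥ a) = lin fun i => (a i : ℝ) := by
    ext u
    simp [lin_cast]
  have e2 : (⇑(-Int.castAddHom ℝ : ℤ →+ ℝ) ∘ fun u : Fin n → ℤ => u ⬝ᵥ a) =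
      lin (-fun i => (a i : ℝ)) := by
    ext u
    simp [lin, dotProduct]
  have top1 : (q : ℤ) ∣ f₀.leadingCoeff := by
    rw [← dv_top hf₀0, hf₀, dv_mul_T hf, hfdef, dv_mapDomain hinj, e1]
    exact (hface _ hxa).1
  have top2 : ¬ (q * q : ℤ) ∣ f₀.leadingCoeff := by
    rw [← dv_top hf₀0, hf₀, dv_mul_T hf, hfdef, dv_mapDomain hinj, e1]
    exact (hface _ hxa).2
  have bot2 : ¬ (q * q : ℤ) ∣ f₀.coeff 0 := by
    rw [← dv_bot hc₀, hf₀, dv_mul_T hf, hfdef, dv_mapDomain hinj, e2]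
    exact (hface _ (neg_ne_zero.mpr hxa)).2
  obtain ⟨g, hg, hgd, hgq⟩ : ∃ g : ℤ[X], Irreducible g ∧ g ∣ f₀ ∧ (q : ℤ) ∣ g.leadingCoeff := by
    obtain ⟨s, hs, hass⟩ := WfDvdMonoid.exists_factors f₀ hf₀0
    have h2 : (q : ℤ) ∣ (s.map leadingCoeffHom).prod := by
      rw [← map_multiset_prod]
      exact top1.trans (map_dvd leadingCoeffHom hass.symm.dvd)
    obtain ⟨c, hc, hqc⟩ := hqZ.exists_mem_multiset_dvd h2
    obtain ⟨g, hg, rfl⟩ := Multiset.mem_map.mp hc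
    exact ⟨g, hs g hg, (Multiset.dvd_prod hg).trans hass.dvd, hqc⟩
  obtain ⟨f₁, hf₁⟩ := hgd
  have hf₁0 : f₁ ≠ 0 := by rintro rfl; simp [hf₀0] at hf₁
  have hc : f₀.coeff 0 = g.coeff 0 * f₁.coeff 0 := by rw [hf₁, mul_coeff_zero]
  have hg0 : g.coeff 0 ≠ 0 := left_ne_zero_of_mul (hc ▸ hc₀)
  have l1 : ¬ (q : ℤ) ∣ f₁.leadingCoeff := fun h =>
    top2 (by rw [hf₁, leadingCoeff_mul]; exact mul_dvd_mul hgq h)
  have hfac : f = toLaurent g * (toLaurent f₁ * T (-j)) := by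
    rw [← mul_assoc, ← map_mul, ← hf₁, hf₀, mul_T_assoc, add_neg_cancel, T_zero, mul_one]
  have c1 : (q : ℤ) ∣ g.coeff 0 := by
    rcases hns _ _ hfac with h | h
    · exact (dv_bot hg0).mp h
    · rw [dv_mul_T (toLaurent_ne_zero.mpr hf₁0), dv_top hf₁0] at h
      exact absurd h l1
  have c2 : ¬ (q : ℤ) ∣ f₁.coeff 0 := fun h => bot2 (hc ▸ mul_dvd_mul c1 h)
  have hdeg : g.natDegree ≠ 0 := by
    intro h0
    obtain ⟨u, hu⟩ := hnd
    apply hu
    have h3 : ((q : ℤ) : ℤ[T;T⁻¹]) ∣ f := by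
      rw [hfac, eq_C_of_natDegree_eq_zero h0]
      refine Dvd.dvd.mul_right ?_ _
      have := map_dvd (toLaurent.comp Polynomial.C) c1
      simpa using this
    by_cases hus : u ∈ F.coeff.support
    · have := (intCast_dvd_iff _ _).mp h3 (u ⬝ᵥ a)
      rwa [hfdef, AddMonoidAlgebra.coeff_mapDomain,
        Finsupp.mapDomain_apply' _ F.coeff subset_rfl hinj hus] at this
    · rw [Finsupp.notMem_support_iff.mp hus]
      exact dvd_zero _
  have hgQ : Prime (g.map (Int.castRingHom ℚ)) :=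
    ((IsPrimitive.Int.irreducible_iff_irreducible_map_cast (hg.isPrimitive hdeg)).mp hg).prime
  have hgQ0 : (g.map (Int.castRingHom ℚ)).coeff 0 ≠ 0 := by simpa using hg0
  obtain ⟨s, hs, hass⟩ := cyc_prod (p := f₁.map (Int.castRingHom ℚ))
    ((Polynomial.map_ne_zero_iff (RingHom.injective_int _)).mpr hf₁0) fun α hα =>
      hun f₁ ⟨toLaurent g * T (-j), by rw [hfac]; ring⟩ l1 c2 α
        (by rwa [← algebraMap_int_eq, aeval_map_algebraMap] at hα)
  refine ⟨toLaurent (g.map (Int.castRingHom ℚ)), ⟨⟨s, hs, ?_⟩, fun m hm hd => ?_⟩,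
    irreducible_toLaurent hgQ hgQ0⟩
  · rw [spec_toQ, ← hfdef, hfac, toQ, map_mul, map_mul, map_toLaurent, map_toLaurent, map_T]
    refine Associated.mul_left _ ((associated_mul_unit_left _ _ (isUnit_T _)).trans ?_)
    have := hass.map toLaurent
    rwa [map_multiset_prod, Multiset.map_map] at this
  · have hcyc0 : (cyclotomic m ℚ).coeff 0 ≠ 0 := by
      rcases Nat.lt_or_ge 1 m with h | h
      · rw [cyclotomic_coeff_zero ℚ h]; exact one_ne_zero
      · obtain rfl : m = 1 := by omega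
        simp
    rw [toLaurent_dvd_iff (cyclotomic.irreducible_rat hm).prime hcyc0, ← map_cyclotomic_int,
      map_dvd_map _ (RingHom.injective_int _) (cyclotomic.monic m ℤ)] at hd
    have hass := (cyclotomic.irreducible hm).associated_of_dvd hg hd
    have := map_dvd leadingCoeffHom hass.symm.dvd
    simp only [leadingCoeffHom_apply, (cyclotomic.monic m ℤ).leadingCoeff] at this
    exact hqZ.not_dvd_one (hgq.trans this)

/-- `spec a` as a ring homomorphism -/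
noncomputable def specHom {n : ℕ} (a : Fin n → ℤ) : LP n →+* ℚ[T;T⁻¹] :=
  AddMonoidAlgebra.mapDomainRingHom ℚ
    (AddMonoidHom.mk' (fun u : Fin n → ℤ => u ⬝ᵥ a) fun u v => add_dotProduct u v a)

lemma specHom_apply {n : ℕ} (a : Fin n → ℤ) (F : LP n) : specHom a F = spec a F := rfl

lemma schinzel_of {n : ℕ} {F : LP n} (hF : Irreducible F)
    (h : ∃ Γ : Finset (Fin n → ℤ), 0 ∉ Γ ∧ ∀ a, (∀ c ∈ Γ, c ⬝ᵥ a ≠ 0) →
      ∃ g, IsStar (spec a F) g ∧ Irreducible g) : Schinzel F := by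
  classical
  obtain ⟨Γ, hΓ, h⟩ := h
  refine ⟨Γ, hΓ, {1}, by simp, fun a => ?_⟩
  by_cases ha : ∃ c ∈ Γ, c ⬝ᵥ a = 0
  · exact Or.inl ha
  push Not at ha
  obtain ⟨g, hg, hgi⟩ := h a ha
  refine Or.inr ⟨1, by simp, a, by simp, fun s e hs _ hass => ?_⟩
  have hid : subst 1 F = F := by
    ext1
    simp only [subst, Matrix.vecMul_one]
    rw [AddMonoidAlgebra.coeff_mapDomain]
    exact Finsupp.mapDomain_id
  rw [hid] at hass
  have hirr : Irreducible (∏ P ∈ s, P ^ e P) := hass.irreducible hF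
  obtain ⟨P₀, hP₀⟩ : s.Nonempty := by
    by_contra hne
    rw [Finset.not_nonempty_iff_eq_empty.mp hne] at hirr
    simp at hirr
  have hnu : ∀ P ∈ s, ¬ IsUnit (P ^ e P) := fun P hP hu =>
    (hs P hP).1.not_isUnit ((isUnit_pow_iff (hs P hP).2.ne').mp hu)
  rw [← Finset.mul_prod_erase s _ hP₀] at hirr
  have hrest := (hirr.isUnit_or_isUnit rfl).resolve_left (hnu P₀ hP₀)
  have hs1 : s = {P₀} := by
    refine Finset.eq_singleton_iff_unique_mem.mpr ⟨hP₀, fun P hP => ?_⟩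
    by_contra hne
    exact hnu P hP (isUnit_of_dvd_unit
      (Finset.dvd_prod_of_mem (fun P => P ^ e P) (Finset.mem_erase.mpr ⟨hne, hP⟩)) hrest)
  subst hs1
  have he : e P₀ = 1 := by
    rw [Finset.erase_singleton, Finset.prod_empty, mul_one] at hirr
    by_contra hne
    exact not_irreducible_pow hne hirr
  rw [Finset.prod_singleton, he, pow_one] at hass
  have hsp : Associated (spec a P₀) (spec a F) := (hass.symm.map (specHom a))
  refine ⟨g, fun _ => g, hg, ?_, by simp, by simp [he]⟩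
  intro P hP
  rw [Finset.mem_singleton.mp hP]
  obtain ⟨⟨t, ht, ht'⟩, hg2⟩ := hg
  exact ⟨⟨⟨t, ht, hsp.trans ht'⟩, hg2⟩, hgi⟩

end Pool.Agent.P.MP_aef18a_nt
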