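import Mathlib

namespace Pool.Agent.P.MP_aef18a_nt

open AddMonoidAlgebra

section Face

variable {G : Type*} [AddCommGroup G] {R : Type*} [CommRing R]

open Classical in
/-- the part of `A` on the level `ω = m` -/
noncomputable def lev (ω : G → ℝ) (m : ℝ) (A : AddMonoidAlgebra R G) : AddMonoidAlgebra R G :=
  .ofCoeff (A.coeff.filter (fun u => ω u = m))

/-- `ω ≤ m` on the support -/
def Bd (ω : G → ℝ) (m : ℝ) (A : AddMonoidAlgebra R G) : Prop :=
  ∀ u ∈ A.coeff.support, ω u ≤ m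

open Classical in
lemma lev_coeff (ω : G → ℝ) (m : ℝ) (A : AddMonoidAlgebra R G) (u : G) :
    (lev ω m A).coeff u = if ω u = m then A.coeff u else 0 := by
  simp [lev, Finsupp.filter_apply]

lemma coeff_mul_of_subset (A B : AddMonoidAlgebra R G) (s : Finset G) (hs : A.coeff.support ⊆ s)
    (g : G) : (A * B).coeff g = ∑ h ∈ s, A.coeff h * B.coeff (-h + g) := by
  rw [coeff_mul_apply_left, Finsupp.sum_of_support_subset _ hs]
  intro i _
  simp

lemma lev_mul (ω : G →+ ℝ) {m₁ m₂ : ℝ} {A B : AddMonoidAlgebra R G}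
    (hA : Bd ω m₁ A) (hB : Bd ω m₂ B) :
    lev ω (m₁ + m₂) (A * B) = lev ω m₁ A * lev ω m₂ B := by
  classical
  ext g
  have hsub : (lev ω m₁ A).coeff.support ⊆ A.coeff.support := by
    intro u hu
    rw [Finsupp.mem_support_iff, lev_coeff] at hu
    rw [Finsupp.mem_support_iff]
    intro h
    simp [h] at hu
  rw [lev_coeff, coeff_mul_of_subset A B _ subset_rfl, coeff_mul_of_subset _ _ _ hsub]
  split_ifs with hg
  · refine Finset.sum_congr rfl fun h hh => ?_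
    rw [lev_coeff, lev_coeff]
    by_cases hb : B.coeff (-h + g) = 0
    · simp [hb]
    · have h1 := hA h hh
      have h2 := hB _ (Finsupp.mem_support_iff.mpr hb)
      rw [map_add, map_neg] at h2
      have e1 : ω h = m₁ := by linarith
      have e2 : ω (-h + g) = m₂ := by rw [map_add, map_neg]; linarith
      simp [e1, e2]
  · symm
    refine Finset.sum_eq_zero fun h _ => ?_
    rw [lev_coeff, lev_coeff]
    split_ifs with e1 e2
    · exfalso
      apply hg
      rw [map_add, map_neg] at e2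
      linarith
    all_goals simp

lemma bd_mul (ω : G →+ ℝ) {m₁ m₂ : ℝ} {A B : AddMonoidAlgebra R G}
    (hA : Bd ω m₁ A) (hB : Bd ω m₂ B) : Bd ω (m₁ + m₂) (A * B) := by
  classical
  intro g hg
  have := support_coeff_mul_subset A B hg
  obtain ⟨x, hx, y, hy, rfl⟩ := Finset.mem_add.mp this
  rw [map_add]
  exact add_le_add (hA x hx) (hB y hy)

lemma lev_ne_zero_iff {ω : G → ℝ} {m : ℝ} {A : AddMonoidAlgebra R G} :
    lev ω m A ≠ 0 ↔ ∃ u ∈ A.coeff.support, ω u = m := by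
  classical
  constructor
  · intro h
    by_contra hc
    push Not at hc
    apply h
    ext u
    rw [lev_coeff]
    split_ifs with e
    · by_contra hu
      exact hc u (Finsupp.mem_support_iff.mpr (by simpa using hu)) e
    · simp
  · rintro ⟨u, hu, e⟩ h
    have := congrArg (fun X : AddMonoidAlgebra R G => X.coeff u) h
    simp only [lev_coeff, e, if_true] at this
    exact Finsupp.mem_support_iff.mp hu (by simpa using this)

lemma exists_top (ω : G → ℝ) {A : AddMonoidAlgebra R G} (hA : A ≠ 0) :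
    ∃ m, Bd ω m A ∧ lev ω m A ≠ 0 := by
  have hne : A.coeff.support.Nonempty := by
    rw [Finsupp.support_nonempty_iff]
    simpa using hA
  obtain ⟨u, hu, hmax⟩ := Finset.exists_max_image _ ω hne
  exact ⟨ω u, hmax, lev_ne_zero_iff.mpr ⟨u, hu, rfl⟩⟩

lemma top_unique {ω : G → ℝ} {m m' : ℝ} {A : AddMonoidAlgebra R G}
    (h1 : Bd ω m A) (h2 : lev ω m A ≠ 0) (h3 : Bd ω m' A) (h4 : lev ω m' A ≠ 0) : m = m' := by
  obtain ⟨u, hu, e⟩ := lev_ne_zero_iff.mp h2
  obtain ⟨u', hu', e'⟩ := lev_ne_zero_iff.mp h4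
  have := h1 u' hu'
  have := h3 u hu
  linarith

/-- all coefficients on the face of `A` in direction `ω` are divisible by `k` -/
def Dv (k : ℤ) (A : AddMonoidAlgebra ℤ G) (ω : G → ℝ) : Prop :=
  ∀ u ∈ A.coeff.support, (∀ u' ∈ A.coeff.support, ω u' ≤ ω u) → k ∣ A.coeff u

lemma intCast_dvd_iff (k : ℤ) (A : AddMonoidAlgebra ℤ G) :
    (k : AddMonoidAlgebra ℤ G) ∣ A ↔ ∀ u, k ∣ A.coeff u := by
  constructor
  · rintro ⟨B, rfl⟩ u
    have : (k : AddMonoidAlgebra ℤ G) * B = k • B := by simp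
    rw [this, coeff_smul]
    simp
  · intro h
    refine ⟨.ofCoeff (A.coeff.mapRange (fun x => x / k) (by simp)), ?_⟩
    have : ∀ B : AddMonoidAlgebra ℤ G, (k : AddMonoidAlgebra ℤ G) * B = k • B := by
      intro B; simp
    rw [this]
    ext u
    rw [coeff_smul]
    simp [Int.mul_ediv_cancel' (h u)]

lemma dv_iff {k : ℤ} {ω : G → ℝ} {m : ℝ} {A : AddMonoidAlgebra ℤ G}
    (h1 : Bd ω m A) (h2 : lev ω m A ≠ 0) :
    Dv k A ω ↔ (k : AddMonoidAlgebra ℤ G) ∣ lev ω m A := by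
  classical
  obtain ⟨u₀, hu₀, e₀⟩ := lev_ne_zero_iff.mp h2
  rw [intCast_dvd_iff]
  constructor
  · intro h u
    rw [lev_coeff]
    split_ifs with e
    · by_cases hu : u ∈ A.coeff.support
      · exact h u hu fun u' hu' => e ▸ h1 u' hu'
      · rw [Finsupp.notMem_support_iff.mp hu]; exact dvd_zero _
    · exact dvd_zero _
  · intro h u hu hmax
    have e : ω u = m := le_antisymm (h1 u hu) (e₀ ▸ hmax u₀ hu₀)
    have := h u
    rwa [lev_coeff, if_pos e] at this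

lemma prime_intCast [UniqueSums G] {q : ℕ} (hq : q.Prime) :
    Prime ((q : ℤ) : AddMonoidAlgebra ℤ G) := by
  have : Fact q.Prime := ⟨hq⟩
  have key : ∀ A : AddMonoidAlgebra ℤ G, ((q : ℤ) : AddMonoidAlgebra ℤ G) ∣ A ↔
      mapRingHom G (Int.castRingHom (ZMod q)) A = 0 := by
    intro A
    rw [intCast_dvd_iff]
    constructor
    · intro h
      ext u
      rw [coeff_mapRingHom]
      simpa [ZMod.intCast_zmod_eq_zero_iff_dvd] using h u
    · intro h u
      have := congrArg (fun X : AddMonoidAlgebra (ZMod q) G => X.coeff u) h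
      simp only [coeff_mapRingHom] at this
      simpa [ZMod.intCast_zmod_eq_zero_iff_dvd] using this
  refine ⟨?_, ?_, ?_⟩
  · intro h
    have := congrArg (fun X : AddMonoidAlgebra ℤ G => X.coeff 0) h
    simp at this
    exact hq.ne_zero this
  · intro h
    have := (key 1).mp h.dvd
    simp at this
  · intro A B h
    rw [key, map_mul] at h
    rw [key, key]
    exact mul_eq_zero.mp h

variable [UniqueSums G]

lemma dv_mul_iff (ω : G →+ ℝ) {q : ℕ} (hq : q.Prime) {A B : AddMonoidAlgebra ℤ G}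
    (hA : A ≠ 0) (hB : B ≠ 0) : Dv q (A * B) ω ↔ Dv q A ω ∨ Dv q B ω := by
  obtain ⟨m₁, a1, a2⟩ := exists_top ω hA
  obtain ⟨m₂, b1, b2⟩ := exists_top ω hB
  have c2 : lev ω (m₁ + m₂) (A * B) ≠ 0 := by rw [lev_mul ω a1 b1]; exact mul_ne_zero a2 b2
  rw [dv_iff a1 a2, dv_iff b1 b2, dv_iff (bd_mul ω a1 b1) c2, lev_mul ω a1 b1]
  exact (prime_intCast hq).dvd_mul

lemma dv_mul (ω : G →+ ℝ) {k l : ℤ} {A B : AddMonoidAlgebra ℤ G}
    (hA : A ≠ 0) (hB : B ≠ 0) (h1 : Dv k A ω) (h2 : Dv l B ω) : Dv (k * l) (A * B) ω := by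
  obtain ⟨m₁, a1, a2⟩ := exists_top ω hA
  obtain ⟨m₂, b1, b2⟩ := exists_top ω hB
  have c2 : lev ω (m₁ + m₂) (A * B) ≠ 0 := by rw [lev_mul ω a1 b1]; exact mul_ne_zero a2 b2
  rw [dv_iff a1 a2] at h1
  rw [dv_iff b1 b2] at h2
  rw [dv_iff (bd_mul ω a1 b1) c2, lev_mul ω a1 b1, Int.cast_mul]
  exact mul_dvd_mul h1 h2

lemma dv_pair (ω : G →+ ℝ) {q : ℕ} (hq : q.Prime) {W W' F F' : AddMonoidAlgebra ℤ G}
    (hF : F ≠ 0) (hF' : F' ≠ 0) (h : W * W' = F * F')
    (f1 : Dv q F ω) (f2 : ¬ Dv (q * q) F ω) (f1' : Dv q F' ω) (f2' : ¬ Dv (q * q) F' ω) :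
    Dv (q * q) W ω ↔ ¬ Dv q W' ω := by
  have hWW : W * W' ≠ 0 := h ▸ mul_ne_zero hF hF'
  obtain ⟨m₁, a1, a2⟩ := exists_top ω (left_ne_zero_of_mul hWW)
  obtain ⟨m₂, b1, b2⟩ := exists_top ω (right_ne_zero_of_mul hWW)
  obtain ⟨m₃, c1, c2⟩ := exists_top ω hF
  obtain ⟨m₄, d1, d2⟩ := exists_top ω hF'
  have e12 := lev_mul ω a1 b1
  have e34 := lev_mul ω c1 d1
  have hm : m₁ + m₂ = m₃ + m₄ := by
    refine top_unique (A := W * W') (ω := ω) (bd_mul ω a1 b1) (e12 ▸ mul_ne_zero a2 b2) ?_ ?_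
    · rw [h]; exact bd_mul ω c1 d1
    · rw [h, e34]; exact mul_ne_zero c2 d2
  have e : lev ω m₁ W * lev ω m₂ W' = lev ω m₃ F * lev ω m₄ F' := by
    rw [← e12, ← e34, hm, h]
  rw [dv_iff a1 a2, dv_iff b1 b2]
  rw [dv_iff c1 c2] at f1 f2
  rw [dv_iff d1 d2] at f1' f2'
  have hp := prime_intCast (G := G) hq
  rw [Int.cast_mul] at f2 f2' ⊢
  set Q : AddMonoidAlgebra ℤ G := ((q : ℤ) : AddMonoidAlgebra ℤ G)
  obtain ⟨x, hx⟩ := f1
  obtain ⟨y, hy⟩ := f1'
  have nx : ¬ Q ∣ x := fun hd => f2 (hx ▸ mul_dvd_mul_left Q hd)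
  have ny : ¬ Q ∣ y := fun hd => f2' (hy ▸ mul_dvd_mul_left Q hd)
  rw [hx, hy] at e
  constructor
  · rintro ⟨z, hz⟩ ⟨z', hz'⟩
    rw [hz, hz'] at e
    have : Q * Q * (Q * (z * z')) = Q * Q * (x * y) := by linear_combination e
    have := mul_left_cancel₀ (mul_ne_zero hp.ne_zero hp.ne_zero) this
    rcases hp.dvd_or_dvd (⟨_, this.symm⟩ : Q ∣ x * y) with h' | h'
    exacts [nx h', ny h']
  · intro hn
    have h1 : Q ∣ lev ω m₁ W :=
      (hp.dvd_or_dvd (⟨x * (Q * y), by rw [e]; ring⟩ : Q ∣ lev ω m₁ W * lev ω m₂ W')).resolve_right hn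
    obtain ⟨z, hz⟩ := h1
    rw [hz] at e ⊢
    have : Q * (z * lev ω m₂ W') = Q * (Q * (x * y)) := by linear_combination e
    have := mul_left_cancel₀ hp.ne_zero this
    exact mul_dvd_mul_left Q
      ((hp.dvd_or_dvd (⟨_, this⟩ : Q ∣ z * lev ω m₂ W')).resolve_right hn)

end Face

section Rot

variable {G : Type*} [AddCommGroup G]

lemma dv_mapDomain {H : Type*} [AddCommGroup H] {k : ℤ} {A : AddMonoidAlgebra ℤ G} {φ : G → H}
    (hφ : Set.InjOn φ A.coeff.support) (ω : H → ℝ) :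
    Dv k (mapDomain φ A) ω ↔ Dv k A (ω ∘ φ) := by
  classical
  have hs : (mapDomain φ A).coeff.support = A.coeff.support.image φ := by
    rw [coeff_mapDomain]
    exact Finsupp.mapDomain_support_of_injOn _ hφ
  have hc : ∀ u ∈ A.coeff.support, (mapDomain φ A).coeff (φ u) = A.coeff u := by
    intro u hu
    rw [coeff_mapDomain]
    exact Finsupp.mapDomain_apply' _ _ subset_rfl hφ hu
  unfold Dv
  rw [hs]
  simp only [Finset.forall_mem_image, Function.comp_apply]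
  constructor
  · intro h u hu hm
    rw [← hc u hu]
    exact h hu fun u' hu' => hm u' hu'
  · intro h u hu hm
    rw [hc u hu]
    exact h u hu fun u' hu' => hm hu'

/-- `A(1/x)` -/
noncomputable def rev {R : Type*} [CommRing R] : AddMonoidAlgebra R G →+* AddMonoidAlgebra R G :=
  mapDomainRingHom R (negAddMonoidHom : G →+ G)

lemma rev_apply {R : Type*} [CommRing R] (A : AddMonoidAlgebra R G) :
    rev A = mapDomain (fun u => -u) A := rfl

lemma rev_single {R : Type*} [CommRing R] (u : G) (r : R) :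
    rev (single u r) = single (-u) r := by
  rw [rev_apply, mapDomain_single]

lemma rev_rev {R : Type*} [CommRing R] (A : AddMonoidAlgebra R G) : rev (rev A) = A := by
  induction A using AddMonoidAlgebra.induction_linear with
  | zero => simp
  | add x y hx hy => rw [map_add, map_add, hx, hy]
  | single u r => rw [rev_single, rev_single, neg_neg]

lemma rev_ne_zero {R : Type*} [CommRing R] {A : AddMonoidAlgebra R G} (hA : A ≠ 0) :
    rev A ≠ 0 := by
  intro h
  apply hA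
  rw [← rev_rev A, h, map_zero]

lemma dv_rev {k : ℤ} {A : AddMonoidAlgebra ℤ G} (ω : G →+ ℝ) :
    Dv k (rev A) ω ↔ Dv k A (-ω : G →+ ℝ) := by
  rw [rev_apply, dv_mapDomain neg_injective.injOn]
  have : (⇑ω ∘ fun u => -u) = ⇑(-ω : G →+ ℝ) := by
    ext u; simp
  rw [this]

lemma isOpen_dv (k : ℤ) (A : AddMonoidAlgebra ℤ G) (ω : ℝ → G → ℝ)
    (hω : ∀ u, Continuous fun θ => ω θ u) : IsOpen {θ | Dv k A (ω θ)} := by
  classical
  have : {θ | Dv k A (ω θ)} = ⋂ u ∈ A.coeff.support.filter (fun u => ¬ k ∣ A.coeff u),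
      ⋃ u' ∈ A.coeff.support, {θ | ω θ u < ω θ u'} := by
    ext θ
    simp only [Dv, Set.mem_ofPred_eq, Set.mem_iInter, Set.mem_iUnion, Finset.mem_filter,
      exists_prop]
    constructor
    · rintro h u ⟨hu, hk⟩
      by_contra hc
      push Not at hc
      exact hk (h u hu hc)
    · intro h u hu hm
      by_contra hk
      obtain ⟨u', hu', hlt⟩ := h u ⟨hu, hk⟩
      exact absurd (hm u' hu') (not_le.mpr hlt)
  rw [this]
  exact isOpen_biInter_finset fun u _ => isOpen_biUnion fun u' _ => isOpen_lt (hω u) (hω u')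

lemma rotation [UniqueSums G] (ω₁ ω₂ : G →+ ℝ) {q : ℕ} (hq : q.Prime)
    {W F : AddMonoidAlgebra ℤ G} (hF : F ≠ 0) (h : W * rev W = F * rev F)
    (hface : ∀ s t : ℝ, (s ≠ 0 ∨ t ≠ 0) →
      Dv q F (s • ω₁ + t • ω₂ : G →+ ℝ) ∧ ¬ Dv (q * q) F (s • ω₁ + t • ω₂ : G →+ ℝ))
    (h0 : Dv (q * q) W ω₁) : Dv (q * q) W (-ω₁ : G →+ ℝ) := by
  let ω : ℝ → (G →+ ℝ) := fun θ => Real.cos θ • ω₁ + Real.sin θ • ω₂
  have hcont : ∀ u, Continuous fun θ => ω θ u := by
    intro u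
    simp only [ω, AddMonoidHom.add_apply, AddMonoidHom.smul_apply, smul_eq_mul]
    fun_prop
  have hcs : ∀ θ : ℝ, Real.cos θ ≠ 0 ∨ Real.sin θ ≠ 0 := by
    intro θ
    by_contra hc
    push Not at hc
    have := Real.sin_sq_add_cos_sq θ
    rw [hc.1, hc.2] at this
    norm_num at this
  have key : ∀ θ, Dv (q * q) W (ω θ) ↔ ¬ Dv q (rev W) (ω θ) := by
    intro θ
    have a := hface _ _ (hcs θ)
    have b := hface (-Real.cos θ) (-Real.sin θ) (by simpa using hcs θ)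
    have e : (-Real.cos θ) • ω₁ + (-Real.sin θ) • ω₂ = -ω θ := by
      simp only [ω]; rw [neg_smul, neg_smul, neg_add]
    rw [e] at b
    exact dv_pair (ω θ) hq hF (rev_ne_zero hF) h a.1 a.2 ((dv_rev _).mpr b.1)
      (fun hh => b.2 ((dv_rev _).mp hh))
  have hU : IsClopen {θ | Dv (q * q) W (ω θ)} := by
    refine ⟨?_, isOpen_dv _ _ (fun θ => ω θ) hcont⟩
    have : {θ | Dv (q * q) W (ω θ)} = {θ | Dv q (rev W) (ω θ)}ᶜ := by
      ext θ; exact key θ
    rw [this]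
    exact (isOpen_dv _ _ (fun θ => ω θ) hcont).isClosed_compl
  have h00 : (0 : ℝ) ∈ {θ | Dv (q * q) W (ω θ)} := by
    have : ω 0 = ω₁ := by simp [ω]
    simpa [this] using h0
  have huniv := (isClopen_iff.mp hU).resolve_left (Set.nonempty_iff_ne_empty.mp ⟨0, h00⟩)
  have hpi : Real.pi ∈ {θ | Dv (q * q) W (ω θ)} := huniv ▸ Set.mem_univ _
  have : ω Real.pi = -ω₁ := by simp [ω]
  simpa [this] using hpi

end Rot

end Pool.Agent.P.MP_aef18a_nt
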