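import Mathlib

namespace Pool.Agent.P.MP_aef18a_nt

open Height AdmissibleAbsValues

section PF

variable {K : Type*} [Field K] [AdmissibleAbsValues K]

lemma pf {y β : K} (hy : y ≠ 0) (hβ : β ≠ 0) (r s : ℕ) {C : ℝ}
    (h1 : ∀ v ∈ archAbsVal (K := K), v y * max (v β) 1 ^ r ≤ C * max (v β) 1 ^ s)
    (h2 : ∀ v ∈ nonarchAbsVal (K := K), v y * max (v β) 1 ^ r ≤ max (v β) 1 ^ s) :
    mulHeight₁ β ^ r ≤ C ^ totalWeight K * mulHeight₁ β ^ s := by
  have f0 : (fun v : nonarchAbsVal (K := K) => max (v.val β) 1).HasFiniteMulSupport := by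
    refine (hasFiniteMulSupport hβ).subset fun v hv => ?_
    intro h
    apply hv
    simp only at h ⊢
    rw [h, max_self]
  have fp : ∀ k : ℕ, (fun v : nonarchAbsVal (K := K) => max (v.val β) 1 ^ k).HasFiniteMulSupport := by
    intro k
    refine f0.subset fun v hv => ?_
    intro h
    apply hv
    simp only at h ⊢
    rw [h, one_pow]
  have fy := hasFiniteMulSupport hy
  have A : (archAbsVal.map fun v : AbsoluteValue K ℝ => v y * max (v β) 1 ^ r).prod ≤
      (archAbsVal.map fun v : AbsoluteValue K ℝ => C * max (v β) 1 ^ s).prod :=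
    Multiset.prod_map_le_prod_map₀ _ _ (fun v _ => by positivity) h1
  have B : ∏ᶠ v : nonarchAbsVal (K := K), v.val y * max (v.val β) 1 ^ r ≤
      ∏ᶠ v : nonarchAbsVal (K := K), max (v.val β) 1 ^ s :=
    finprod_le_finprod (fy.mul (fp r)) (fun v => by positivity) (fp s) fun v => h2 v.val v.2
  have B0 : 0 ≤ ∏ᶠ v : nonarchAbsVal (K := K), v.val y * max (v.val β) 1 ^ r :=
    finprod_nonneg fun v => by positivity
  have A0 : 0 ≤ (archAbsVal.map fun v : AbsoluteValue K ℝ => v y * max (v β) 1 ^ r).prod :=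
    Multiset.prod_map_nonneg fun v _ => by positivity
  have := mul_le_mul A B B0 (A0.trans A)
  rw [Multiset.prod_map_mul, Multiset.prod_map_mul, Multiset.prod_map_pow, Multiset.prod_map_pow,
    finprod_mul_distrib fy (fp r), ← finprod_pow f0, ← finprod_pow f0, Multiset.map_const',
    Multiset.prod_replicate, mul_mul_mul_comm, product_formula hy, one_mul, ← mul_pow, mul_assoc,
    ← mul_pow] at this
  exact this

end PF

section NF

variable {K : Type*} [Field K] [NumberField K] {ι : Type*}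

lemma arch_int {v : AbsoluteValue K ℝ} (hv : v ∈ archAbsVal (K := K)) (k : ℤ) :
    v (k : K) = |(k : ℝ)| := by
  obtain ⟨w, rfl⟩ := (NumberField.isInfinitePlace_iff v).mp
    (NumberField.mem_multisetInfinitePlace.mp hv)
  exact w.map_intCast k

lemma arch_sum {v : AbsoluteValue K ℝ} (hv : v ∈ archAbsVal (K := K)) (s : Finset ι) (k : ι → ℤ)
    (x : ι → K) {B M : ℝ} (T : ℕ) (hT : s.card ≤ T) (hB : 0 ≤ B) (hM : 0 ≤ M)
    (hk : ∀ u ∈ s, |(k u : ℝ)| ≤ B)
    (hx : ∀ u ∈ s, v (x u) ≤ M) : v (∑ u ∈ s, k u * x u) ≤ T * B * M := by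
  refine (v.sum_le _ _).trans ?_
  refine (Finset.sum_le_card_nsmul _ _ (B * M) fun u hu => ?_).trans ?_
  · rw [map_mul, arch_int hv]
    exact mul_le_mul (hk u hu) (hx u hu) (v.nonneg _) hB
  · rw [nsmul_eq_mul, mul_assoc]
    exact mul_le_mul_of_nonneg_right (by exact_mod_cast hT) (mul_nonneg hB hM)

omit [NumberField K] in
lemma nonarch_sum {v : AbsoluteValue K ℝ} (hv : IsNonarchimedean v) (s : Finset ι) (k : ι → ℤ)
    (x : ι → K) {M : ℝ} (hM : 0 ≤ M) (hx : ∀ u ∈ s, v (x u) ≤ M) :
    v (∑ u ∈ s, k u * x u) ≤ M := by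
  rcases s.eq_empty_or_nonempty with rfl | hs
  · simpa using hM
  obtain ⟨b, hb, h⟩ := hv.finset_image_add_of_nonempty (fun u => k u * x u) hs
  refine h.trans ?_
  rw [map_mul]
  exact (mul_le_of_le_one_left (v.nonneg _) hv.apply_intCast_le_one).trans (hx b hb)

omit [NumberField K] in
lemma nonarch_unit {v : AbsoluteValue K ℝ} (hv : IsNonarchimedean v) {q : ℕ} (hq : q.Prime)
    (h : v (q : K) < 1) {β : K} {p : Polynomial ℤ} (hp : Polynomial.aeval β p = 0)
    (h1 : ¬ (q : ℤ) ∣ p.leadingCoeff) (h0 : ¬ (q : ℤ) ∣ p.coeff 0) : v β = 1 := by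
  have key : ∀ k : ℤ, ¬ (q : ℤ) ∣ k → v (k : K) = 1 := by
    intro k hk
    obtain ⟨x, y, hxy⟩ := ((Nat.prime_iff_prime_int.mp hq).coprime_iff_not_dvd).mpr hk
    refine le_antisymm hv.apply_intCast_le_one ?_
    by_contra hlt
    push Not at hlt
    have e : (1 : K) = (x : K) * (q : K) + (y : K) * (k : K) := by exact_mod_cast congrArg (Int.cast : ℤ → K) hxy.symm
    have := hv ((x : K) * (q : K)) ((y : K) * (k : K))
    rw [← e, map_one, map_mul, map_mul] at this
    have a1 : v (x : K) * v (q : K) < 1 :=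
      (mul_le_of_le_one_left (v.nonneg _) hv.apply_intCast_le_one).trans_lt h
    have a2 : v (y : K) * v (k : K) < 1 :=
      (mul_le_of_le_one_left (v.nonneg _) hv.apply_intCast_le_one).trans_lt hlt
    exact absurd this (not_le.mpr (max_lt a1 a2))
  rw [Polynomial.aeval_eq_sum_range] at hp
  simp only [zsmul_eq_mul] at hp
  by_contra hne
  rcases lt_or_gt_of_ne hne with hlt | hgt
  · have := hv.apply_sum_eq_of_lt (fun a => (v.map_neg a).symm)
      (s := Finset.range (p.natDegree + 1)) (l := fun i => (p.coeff i : K) * β ^ i) (k := 0)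
      (by simp) (fun j _ hj => by
        rw [map_mul, map_mul, key _ h0, pow_zero, map_one, one_mul, map_pow]
        exact (mul_le_of_le_one_left (by positivity) hv.apply_intCast_le_one).trans_lt
          (pow_lt_one₀ (v.nonneg _) hlt hj))
    rw [hp, map_zero, map_mul, key _ h0] at this
    simp at this
  · have := hv.apply_sum_eq_of_lt (fun a => (v.map_neg a).symm)
      (s := Finset.range (p.natDegree + 1)) (l := fun i => (p.coeff i : K) * β ^ i)
      (k := p.natDegree) (by simp) (fun j hj hj' => by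
        rw [map_mul, map_mul, Polynomial.coeff_natDegree, key _ h1, one_mul, map_pow, map_pow]
        refine (mul_le_of_le_one_left (by positivity) hv.apply_intCast_le_one).trans_lt
          (pow_lt_pow_right₀ hgt ?_)
        have := Finset.mem_range.mp hj
        omega)
    rw [hp, map_zero, map_mul, Polynomial.coeff_natDegree, key _ h1, one_mul, map_pow] at this
    have h2 : 0 < v β ^ p.natDegree := by positivity
    exact h2.ne this

lemma height_key (S : Finset ι) (T : ℕ) (hT : S.card ≤ T) (e c c' nn ε : ι → ℤ) {q : ℕ}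
    (hq : 0 < q) (m : ℤ) {β : K} (hβ : β ≠ 0)
    (hunit : ∀ v ∈ nonarchAbsVal (K := K), v (q : K) < 1 → v β = 1)
    (hroot : ∑ u ∈ S, (c u : K) * β ^ e u = 0) (w lo : ℤ) (g D r : ℕ)
    (hgap : ∀ u ∈ S, e u ≤ w ∨ w + g ≤ e u) (hc' : ∀ u ∈ S, e u ≤ w → c u = q * c' u)
    {B η : ℝ} (hB0 : 0 ≤ B) (hη : 0 ≤ η) (hB : ∀ u ∈ S, |(c u : ℝ)| ≤ B * q)
    (hrange : ∀ u ∈ S, lo ≤ e u ∧ e u ≤ lo + D)
    (hdir : ∀ u ∈ S, m * c u = q * nn u + ε u ∧ |(ε u : ℝ)| ≤ η * q)
    (hy : ∑ u ∈ S.filter (fun u => e u ≤ w), (c' u : K) * β ^ e u ≠ 0)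
    (hz : ∑ u ∈ S, (nn u : K) * β ^ e u ≠ 0) (hr : D ≤ g * r) :
    1 ≤ T * η * (T * B) ^ r := by
  classical
  have hqK : (q : K) ≠ 0 := by exact_mod_cast hq.ne'
  have hqR : (0 : ℝ) < q := by exact_mod_cast hq
  set y : K := ∑ u ∈ S.filter (fun u => e u ≤ w), (c' u : K) * β ^ (e u - (w + g)) with hydef
  have hy0 : y ≠ 0 := by
    intro h
    apply hy
    have := congrArg (· * β ^ (w + g)) h
    simp only [hydef, Finset.sum_mul, zero_mul, mul_assoc, ← zpow_add₀ hβ, sub_add_cancel] at this
    exact this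
  have hy2 : (q : K) * y =
      ∑ u ∈ S.filter (fun u => ¬ e u ≤ w), ((-c u : ℤ) : K) * β ^ (e u - (w + g)) := by
    have := congrArg (· * β ^ (-(w + g))) hroot
    simp only [Finset.sum_mul, zero_mul, mul_assoc, ← zpow_add₀ hβ, ← sub_eq_add_neg] at this
    rw [← Finset.sum_filter_add_sum_filter_not S (fun u => e u ≤ w)] at this
    simp only [Int.cast_neg, neg_mul, Finset.sum_neg_distrib]
    rw [← eq_neg_of_add_eq_zero_left this, hydef, Finset.mul_sum]
    refine Finset.sum_congr rfl fun u hu => ?_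
    obtain ⟨h1, h2⟩ := Finset.mem_filter.mp hu
    rw [hc' u h1 h2]
    push_cast
    ring
  have big : ∀ v : AbsoluteValue K ℝ, 1 ≤ v β → ∀ u ∈ S.filter (fun u => e u ≤ w),
      v (β ^ (e u - (w + g))) ≤ (v β ^ g)⁻¹ := by
    intro v hv u hu
    rw [map_zpow₀, ← zpow_natCast, ← zpow_neg]
    have := (Finset.mem_filter.mp hu).2
    exact zpow_le_zpow_right₀ hv (by omega)
  have small : ∀ v : AbsoluteValue K ℝ, v β < 1 → ∀ u ∈ S.filter (fun u => ¬ e u ≤ w),
      v (β ^ (e u - (w + g))) ≤ 1 := by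
    intro v hv u hu
    rw [map_zpow₀]
    obtain ⟨h1, h2⟩ := Finset.mem_filter.mp hu
    have := (hgap u h1).resolve_left h2
    exact zpow_le_one₀ (v.pos hβ) hv.le (by omega)
  have H1 : mulHeight₁ β ^ g ≤ (T * B) ^ totalWeight K * mulHeight₁ β ^ 0 := by
    refine pf hy0 hβ g 0 (fun v hv => ?_) (fun v hv => ?_)
    · rw [pow_zero, mul_one]
      rcases le_or_gt 1 (v β) with h | h
      · have := arch_sum hv _ c' _ T ((Finset.card_filter_le _ _).trans hT) hB0 (by positivity)
          (fun u hu => by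
            obtain ⟨h1, h2⟩ := Finset.mem_filter.mp hu
            have := hB u h1
            rw [hc' u h1 h2, Int.cast_mul, abs_mul, Int.cast_natCast, abs_of_pos hqR,
              mul_comm] at this
            exact le_of_mul_le_mul_right this hqR) (big v h)
        rw [max_eq_left h]
        rwa [← div_eq_mul_inv, le_div_iff₀ (by positivity)] at this
      · have := arch_sum hv _ (fun u => -c u) _ T ((Finset.card_filter_le _ _).trans hT)
          (B := B * q) (by positivity) zero_le_one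
          (fun u hu => by simpa using hB u (Finset.mem_filter.mp hu).1) (small v h)
        rw [← hy2, map_mul, ← Int.cast_natCast, arch_int hv, Int.cast_natCast, abs_of_pos hqR]
          at this
        rw [max_eq_right h.le, one_pow, mul_one]
        refine le_of_mul_le_mul_left ?_ hqR
        linarith
    · rw [pow_zero]
      have hna := isNonarchimedean v hv
      rcases le_or_gt 1 (v β) with h | h
      · have := nonarch_sum hna _ c' _ (by positivity) (big v h)
        rw [max_eq_left h]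
        rwa [inv_eq_one_div, le_div_iff₀ (by positivity)] at this
      · have := nonarch_sum hna _ (fun u => -c u) _ zero_le_one (small v h)
        have hq1 : v (q : K) = 1 := by
          refine le_antisymm hna.apply_natCast_le_one ?_
          by_contra hlt
          exact h.ne (hunit v hv (not_le.mp hlt))
        rw [← hy2, map_mul, hq1, one_mul] at this
        rwa [max_eq_right h.le, one_pow, mul_one]
  set z : K := ∑ u ∈ S, (nn u : K) * β ^ (e u - lo) with hzdef
  have hz0 : z ≠ 0 := by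
    intro h
    apply hz
    have := congrArg (· * β ^ lo) h
    simp only [hzdef, Finset.sum_mul, zero_mul, mul_assoc, ← zpow_add₀ hβ, sub_add_cancel] at this
    exact this
  have hz2 : (q : K) * z = ∑ u ∈ S, ((-ε u : ℤ) : K) * β ^ (e u - lo) := by
    have := congrArg (fun x => (m : K) * (x * β ^ (-lo))) hroot
    simp only [Finset.sum_mul, Finset.mul_sum, zero_mul, mul_zero, mul_assoc, ← zpow_add₀ hβ,
      ← sub_eq_add_neg] at this
    rw [← sub_eq_zero, hzdef, Finset.mul_sum, ← Finset.sum_sub_distrib, ← this]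
    refine Finset.sum_congr rfl fun u hu => ?_
    have h1 : (m : K) * c u = q * nn u + ε u := by exact_mod_cast congrArg (Int.cast : ℤ → K) (hdir u hu).1
    push_cast
    linear_combination (-β ^ (e u - lo)) * h1
  have all : ∀ v : AbsoluteValue K ℝ, ∀ u ∈ S, v (β ^ (e u - lo)) ≤ max (v β) 1 ^ D := by
    intro v u hu
    obtain ⟨h1, h2⟩ := hrange u hu
    obtain ⟨k, hk⟩ := Int.eq_ofNat_of_zero_le (sub_nonneg.mpr h1)
    rw [hk, zpow_natCast, map_pow]
    exact (pow_le_pow_left₀ (v.nonneg _) (le_max_left _ _) _).trans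
      (pow_le_pow_right₀ (le_max_right _ _) (by omega))
  have H2 : mulHeight₁ β ^ 0 ≤ (T * η) ^ totalWeight K * mulHeight₁ β ^ D := by
    refine pf hz0 hβ 0 D (fun v hv => ?_) (fun v hv => ?_)
    · rw [pow_zero, mul_one]
      have := arch_sum hv S (fun u => -ε u) _ T hT (B := η * q) (by positivity) (by positivity)
        (fun u hu => by simpa using (hdir u hu).2) (all v)
      rw [← hz2, map_mul, ← Int.cast_natCast, arch_int hv, Int.cast_natCast, abs_of_pos hqR]
        at this
      refine le_of_mul_le_mul_left ?_ hqR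
      linarith
    · rw [pow_zero, mul_one]
      exact nonarch_sum (isNonarchimedean v hv) _ nn _ (by positivity) (all v)
  rw [pow_zero, mul_one] at H1
  rw [pow_zero] at H2
  have H3 : mulHeight₁ β ^ D ≤ ((T * B) ^ r) ^ totalWeight K := by
    refine (pow_le_pow_right₀ (one_le_mulHeight₁ β) hr).trans ?_
    rw [pow_mul, ← pow_mul (T * B : ℝ), mul_comm r, pow_mul]
    exact pow_le_pow_left₀ (by positivity) H1 r
  have H4 : 1 ≤ (T * η * (T * B) ^ r) ^ totalWeight K := by
    rw [mul_pow]
    exact H2.trans (mul_le_mul_of_nonneg_left H3 (by positivity))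
  exact (one_le_pow_iff_of_nonneg (by positivity) (NumberField.totalWeight_pos K).ne').mp H4

end NF

lemma exists_gap (V : Finset ℤ) (lo : ℤ) : ∀ (n : ℕ) (k : ℤ), lo ≤ k →
    (V.filter (fun v => lo < v ∧ v < k)).card ≤ n →
    ∃ (w : ℤ) (g : ℕ), lo ≤ w ∧ w + g ≤ k ∧ (∀ v ∈ V, v ≤ w ∨ w + g ≤ v) ∧
      k - lo ≤ g * (n + 1) := by
  intro n
  induction n with
  | zero =>
    intro k hk h
    obtain ⟨g, hg⟩ := Int.eq_ofNat_of_zero_le (sub_nonneg.mpr hk)
    refine ⟨lo, g, le_rfl, by omega, fun v hv => ?_, by omega⟩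
    by_contra hc
    have : v ∈ V.filter (fun v => lo < v ∧ v < k) := Finset.mem_filter.mpr ⟨hv, by omega⟩
    rw [Finset.card_eq_zero.mp (Nat.le_zero.mp h)] at this
    simp at this
  | succ n ih =>
    intro k hk h
    rcases (V.filter (fun v => lo < v ∧ v < k)).eq_empty_or_nonempty with he | hne
    · obtain ⟨w, g, h1, h2, h3, h4⟩ := ih k hk (by simp [he])
      refine ⟨w, g, h1, h2, h3, h4.trans ?_⟩
      push_cast
      nlinarith [Int.natCast_nonneg g]
    · set p := (V.filter (fun v => lo < v ∧ v < k)).max' hne with hp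
      have hpm := Finset.mem_filter.mp ((V.filter (fun v => lo < v ∧ v < k)).max'_mem hne)
      rw [← hp] at hpm
      have hsub : V.filter (fun v => lo < v ∧ v < p) ⊆
          (V.filter (fun v => lo < v ∧ v < k)).erase p := by
        intro v hv
        obtain ⟨h1, h2⟩ := Finset.mem_filter.mp hv
        exact Finset.mem_erase.mpr ⟨h2.2.ne, Finset.mem_filter.mpr ⟨h1, h2.1, by omega⟩⟩
      have hcard := Finset.card_le_card hsub
      rw [Finset.card_erase_of_mem (Finset.mem_filter.mpr hpm)] at hcard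
      obtain ⟨w, g, h1, h2, h3, h4⟩ := ih p hpm.2.1.le (by omega)
      obtain ⟨g', hg'⟩ := Int.eq_ofNat_of_zero_le (sub_nonneg.mpr hpm.2.2.le)
      rcases le_total g' g with hgg | hgg
      · refine ⟨w, g, h1, by omega, h3, ?_⟩
        have : (g' : ℤ) ≤ g := by exact_mod_cast hgg
        push_cast
        nlinarith
      · refine ⟨p, g', hpm.2.1.le, by omega, fun v hv => ?_, ?_⟩
        · by_contra hc
          have hv' : v ∈ V.filter (fun v => lo < v ∧ v < k) :=
            Finset.mem_filter.mpr ⟨hv, by omega⟩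
          have := Finset.le_max' _ v hv'
          rw [← hp] at this
          omega
        · have : (g : ℤ) ≤ g' := by exact_mod_cast hgg
          push_cast
          nlinarith

lemma dirichlet {ι : Type*} (S : Finset ι) (c : ι → ℤ) {q L : ℕ} (hL : 0 < L)
    (h : L ^ S.card < q) : ∃ m : ℤ, 0 < m ∧ m < q ∧ ∃ nn ε : ι → ℤ,
      ∀ u ∈ S, m * c u = q * nn u + ε u ∧ |ε u| * L < q := by
  classical
  have hq : (0 : ℤ) < q := by exact_mod_cast (Nat.zero_le _).trans_lt h
  have hL' : (0 : ℤ) < L := by exact_mod_cast hL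
  let f : ℕ → (S → ℤ) := fun j u => ((j * c u) % q * L) / q
  obtain ⟨j₁, h₁, j₂, h₂, hne, hf⟩ := Finset.exists_ne_map_eq_of_card_lt_of_maps_to
    (s := Finset.range q) (t := Fintype.piFinset fun _ : S => Finset.Ico (0 : ℤ) L) (f := f)
    (by simpa using h) (fun j _ => by
      simp only [Finset.mem_coe, Fintype.mem_piFinset, Finset.mem_Ico, f]
      intro u
      have a1 := Int.emod_nonneg (j * c u) hq.ne'
      have a2 := Int.emod_lt_of_pos (j * c u) hq
      exact ⟨Int.ediv_nonneg (by positivity) hq.le, Int.ediv_lt_of_lt_mul hq (by nlinarith)⟩)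
  wlog hlt : j₁ < j₂ generalizing j₁ j₂
  · exact this j₂ h₂ j₁ h₁ hne.symm hf.symm (by omega)
  have := Finset.mem_range.mp h₂
  refine ⟨j₂ - j₁, by omega, by omega, fun u => j₂ * c u / q - j₁ * c u / q,
    fun u => j₂ * c u % q - j₁ * c u % q, fun u hu => ⟨?_, ?_⟩⟩
  · have e1 := Int.mul_ediv_add_emod (j₁ * c u) q
    have e2 := Int.mul_ediv_add_emod (j₂ * c u) q
    linear_combination e1 - e2
  · have e := congrFun hf ⟨u, hu⟩
    simp only [f] at e
    have e1 := Int.mul_ediv_add_emod (j₁ * c u % q * L) q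
    have e2 := Int.mul_ediv_add_emod (j₂ * c u % q * L) q
    have a1 := Int.emod_nonneg (j₁ * c u % q * L) hq.ne'
    have a2 := Int.emod_lt_of_pos (j₁ * c u % q * L) hq
    have a3 := Int.emod_nonneg (j₂ * c u % q * L) hq.ne'
    have a4 := Int.emod_lt_of_pos (j₂ * c u % q * L) hq
    rw [e] at e1
    rw [← abs_of_pos hL', ← abs_mul, sub_mul, abs_lt]
    constructor <;> linarith

end Pool.Agent.P.MP_aef18a_nt
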