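import Pool.Agent.P.MP_aef18a_nt.Unit

namespace Pool.Agent.P.MP_aef18a_nt

open Filter Topology

/-- the linear form `y ↦ ⟨y, x⟩` on `ℝ^n` -/
noncomputable def linR {n : ℕ} (x : Fin n → ℝ) : (Fin n → ℝ) →ₗ[ℝ] ℝ where
  toFun y := ∑ i, y i * x i
  map_add' y z := by simp [add_mul, Finset.sum_add_distrib]
  map_smul' r y := by simp [Finset.mul_sum, mul_assoc]

lemma linR_pt {n : ℕ} (x : Fin n → ℝ) (u : Fin n → ℤ) : linR x (pt u) = lin x u := rfl

lemma exists_int {n : ℕ} {F : LP n} {c : (Fin n → ℤ) → ℤ} (hc : ∀ u, F.coeff u = c u) :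
    ∃ Z : AddMonoidAlgebra ℤ (Fin n → ℤ), toQ Z = F ∧ ∀ u, Z.coeff u = c u := by
  refine ⟨.ofCoeff (Finsupp.onFinset F.coeff.support c fun u hu => ?_), ?_, fun u => rfl⟩
  · rw [Finsupp.mem_support_iff, hc]
    exact_mod_cast hu
  · ext u
    rw [toQ, AddMonoidAlgebra.coeff_mapRingHom, hc]
    rfl

lemma face_dv {n : ℕ} {Z : AddMonoidAlgebra ℤ (Fin n → ℤ)} {q : ℤ}
    (h : ∀ u, ¬ q ∣ Z.coeff u → pt u ∈ interior (newt (toQ Z))) (x : Fin n → ℝ) (hx : x ≠ 0) :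
    Dv q Z (lin x) := by
  intro u _ hmax
  by_contra hq
  have h1 := mem_interior_iff_mem_nhds.mp (h u hq)
  have h2 : Tendsto (fun t : ℝ => pt u + t • x) (𝓝[>] 0) (𝓝 (pt u)) := by
    have : Continuous fun t : ℝ => pt u + t • x := by fun_prop
    simpa using (this.tendsto 0).mono_left (nhdsWithin_le_nhds (s := Set.Ioi 0))
  obtain ⟨t, ht, ht0⟩ := ((h2.eventually h1).and self_mem_nhdsWithin).exists
  obtain ⟨y, ⟨z, hz, rfl⟩, hy⟩ := ((linR x).convexOn convex_univ).exists_ge_of_mem_convexHull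
    (Set.subset_univ _) ht
  rw [support_toQ] at hz
  have h3 := hmax z hz
  rw [map_add, map_smul, linR_pt, linR_pt, smul_eq_mul] at hy
  have h4 : 0 < linR x x := by
    obtain ⟨i, hi⟩ := Function.ne_iff.mp hx
    exact Finset.sum_pos' (fun j _ => mul_self_nonneg _)
      ⟨i, Finset.mem_univ _, mul_self_pos.mpr hi⟩
  have : 0 < t * linR x x := mul_pos ht0 h4
  linarith

lemma face_ndv {n : ℕ} {Z : AddMonoidAlgebra ℤ (Fin n → ℤ)} {k : ℤ} (hZ : Z ≠ 0)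
    (h : ∀ u, pt u ∈ (newt (toQ Z)).extremePoints ℝ → ¬ k ∣ Z.coeff u) (x : Fin n → ℝ) :
    ¬ Dv k Z (lin x) := by
  intro hd
  let l : StrongDual ℝ (Fin n → ℝ) := LinearMap.toContinuousLinearMap (linR x)
  have hcomp : IsCompact (newt (toQ Z)) :=
    ((toQ Z).coeff.support.finite_toSet.image _).isCompact_convexHull ℝ
  have hexp : IsExposed ℝ (newt (toQ Z)) (l.toExposed (newt (toQ Z))) :=
    ContinuousLinearMap.toExposed.isExposed
  have hne : (newt (toQ Z)).Nonempty := by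
    obtain ⟨u, hu⟩ : Z.coeff.support.Nonempty := by
      rw [Finsupp.support_nonempty_iff]
      simpa using hZ
    exact ⟨pt u, subset_convexHull _ _ ⟨u, by rwa [support_toQ], rfl⟩⟩
  obtain ⟨y, hy, hy'⟩ := hcomp.exists_isMaxOn hne l.continuous.continuousOn
  obtain ⟨p, hp⟩ := (hexp.isCompact hcomp).extremePoints_nonempty ⟨y, hy, hy'⟩
  have hp' := hexp.isExtreme.extremePoints_subset_extremePoints hp
  obtain ⟨u, hu, rfl⟩ := extremePoints_convexHull_subset hp'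
  rw [support_toQ] at hu
  refine h u hp' (hd u hu fun u' hu' => ?_)
  exact hp.1.2 (pt u') (subset_convexHull _ _ ⟨u', by rwa [support_toQ], rfl⟩)

lemma geo {n : ℕ} (S₀ : Finset (Fin n → ℤ)) : ∃ r₀ : ℕ, ∀ S ⊆ S₀, ∀ u ∈ S,
    pt u ∈ interior (convexHull ℝ (pt '' (S : Set (Fin n → ℤ)))) → ∀ a : Fin n → ℤ,
      ∀ w ∈ S, ∀ w' ∈ S, ∃ z ∈ S, w ⬝ᵥ a - w' ⬝ᵥ a ≤ r₀ * (u ⬝ᵥ a - z ⬝ᵥ a) := by
  have key : ∀ᶠ r : ℕ in atTop, ∀ S ∈ S₀.powerset, ∀ u ∈ S₀, ∀ w ∈ S₀, ∀ w' ∈ S₀,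
      pt u ∈ interior (convexHull ℝ (pt '' (S : Set (Fin n → ℤ)))) →
      pt u - ((r : ℝ))⁻¹ • (pt w - pt w') ∈ convexHull ℝ (pt '' (S : Set (Fin n → ℤ))) := by
    simp only [eventually_all_finset]
    intro S _ u _ w _ w' _
    by_cases h : pt u ∈ interior (convexHull ℝ (pt '' (S : Set (Fin n → ℤ))))
    · have h2 : Tendsto (fun r : ℕ => pt u - ((r : ℝ))⁻¹ • (pt w - pt w')) atTop (𝓝 (pt u)) := by
        simpa using tendsto_const_nhds.sub
          (tendsto_inv_atTop_nhds_zero_nat (𝕜 := ℝ) |>.smul_const (pt w - pt w'))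
      exact (h2.eventually (mem_interior_iff_mem_nhds.mp h)).mono fun r hr _ => hr
    · exact Eventually.of_forall fun r h' => absurd h' h
  obtain ⟨r, hr, hr0⟩ := (key.and (eventually_gt_atTop 0)).exists
  refine ⟨r, fun S hS u hu hint a w hw w' hw' => ?_⟩
  obtain ⟨y, ⟨z, hz, rfl⟩, hy⟩ :=
    ((linR fun i => (a i : ℝ)).concaveOn convex_univ).exists_le_of_mem_convexHull
    (Set.subset_univ _) (hr S (Finset.mem_powerset.mpr hS) u (hS hu) w (hS hw) w' (hS hw') hint)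
  refine ⟨z, hz, ?_⟩
  rw [map_sub, map_smul, map_sub, linR_pt, linR_pt, linR_pt, linR_pt, lin_cast, lin_cast, lin_cast,
    lin_cast, smul_eq_mul, le_sub_comm, inv_mul_le_iff₀ (by exact_mod_cast hr0)] at hy
  exact_mod_cast hy

theorem mainA {n : ℕ} (hn : 2 ≤ n) {q : ℕ} (hq : q.Prime) {F : LP n} {c : (Fin n → ℤ) → ℤ}
    (hc : ∀ u, F.coeff u = c u) (h1 : ∃! u, ¬ (q : ℤ) ∣ c u)
    (h2 : ∀ u, ¬ (q : ℤ) ∣ c u → pt u ∈ interior (newt F))
    (h3 : ∀ u, pt u ∈ (newt F).extremePoints ℝ → ¬ (q : ℤ) ^ 2 ∣ c u)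
    (hF : Irreducible F) : Schinzel F := by
  obtain ⟨Z, rfl, hZ⟩ := exists_int hc
  simp only [← hZ, sq] at h1 h2 h3
  have hZ0 : Z ≠ 0 := by
    rintro rfl
    simp at hF
  exact schinzel_of hF (core hn hq h1.exists
    (fun x hx => ⟨face_dv h2 x hx, face_ndv hZ0 h3 x⟩) ∅ (by simp)
    fun a _ _ _ p hp hp1 hp0 α hα => (unitA hq h1 a p hp hp1 hp0 α hα).elim)

theorem mainB {n : ℕ} (hn : 2 ≤ n) (S : Finset (Fin n → ℤ)) :
    ∃ ε : ℝ, 0 < ε ∧ ∃ q₀ : ℕ, ∀ q : ℕ, q.Prime → q₀ ≤ q →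
      ∀ (F : LP n) (c : (Fin n → ℤ) → ℤ), (∀ u, F.coeff u = c u) → F.coeff.support ⊆ S →
      (∀ u, |(c u : ℝ)| ≤ (q : ℝ) ^ (1 + ε)) → (∃ u, ¬ (q : ℤ) ∣ c u) →
      (∀ u, ¬ (q : ℤ) ∣ c u → pt u ∈ interior (newt F)) → Irreducible F → CZ F → Schinzel F := by
  obtain ⟨r₀, hgeo⟩ := geo S
  set T := S.card with hT
  set r := (T + 1) * r₀ with hr
  set N := 2 * (r * T + 1) with hN
  set C := (T * T ^ r + 1) ^ T with hC
  refine ⟨(N : ℝ)⁻¹, by positivity, C ^ 2 + 1, fun q hq hq₀ F c hc hS hB hnd hint hF hcz => ?_⟩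
  obtain ⟨Z, rfl, hZ⟩ := exists_int hc
  simp only [← hZ] at hB hnd hint
  rw [support_toQ] at hS
  have hq1 : (1 : ℝ) < q := by exact_mod_cast hq.one_lt
  have hN0 : N ≠ 0 := by omega
  set B : ℝ := (q : ℝ) ^ (N : ℝ)⁻¹ with hBdef
  have hB1 : 1 < B := Real.one_lt_rpow hq1 (by positivity)
  have hBN : B ^ N = q := Real.rpow_inv_natCast_pow (by positivity) hN0
  have hB' : ∀ u, |(Z.coeff u : ℝ)| ≤ B * q := by
    intro u
    have := hB u
    rwa [Real.rpow_add (by positivity), Real.rpow_one, mul_comm] at this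
  have hBq : B < q := by
    rw [← hBN]
    exact lt_self_pow₀ hB1 (by omega)
  have hZ0 : Z ≠ 0 := by
    rintro rfl
    simp at hF
  have hface : ∀ x : Fin n → ℝ, x ≠ 0 → Dv q Z (lin x) ∧ ¬ Dv (q * q) Z (lin x) := by
    intro x hx
    refine ⟨face_dv hint x hx, fun hd => ?_⟩
    obtain ⟨u, hu, hmax⟩ := Finset.exists_max_image Z.coeff.support (lin x)
      (by rw [Finsupp.support_nonempty_iff]; simpa using hZ0)
    have h1 := Int.le_of_dvd (abs_pos.mpr (Finsupp.mem_support_iff.mp hu))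
      ((dvd_abs _ _).mpr (hd u hu hmax))
    have h2 : (q * q : ℝ) ≤ |(Z.coeff u : ℝ)| := by exact_mod_cast h1
    have := hB' u
    nlinarith
  set L := ⌊(T : ℝ) * (T * B) ^ r⌋₊ + 1 with hL
  have hLq : L ^ T < q := by
    have h1 : (L : ℝ) ≤ (T * T ^ r + 1) * B ^ r := by
      have := Nat.floor_le (show (0 : ℝ) ≤ T * (T * B) ^ r by positivity)
      have h2 : 1 ≤ B ^ r := one_le_pow₀ hB1.le
      rw [hL]
      push_cast
      rw [mul_pow] at this ⊢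
      linarith
    have h2 : (L : ℝ) ^ T ≤ C * B ^ (r * T + 1) := by
      refine (pow_le_pow_left₀ (by positivity) h1 T).trans ?_
      rw [mul_pow, ← pow_mul, hC]
      push_cast
      exact mul_le_mul_of_nonneg_left (pow_le_pow_right₀ hB1.le (by omega)) (by positivity)
    have h3 : (B ^ (r * T + 1)) ^ 2 = q := by rw [← pow_mul, mul_comm, hBN]
    have h4 : (C : ℝ) ^ 2 < q := by exact_mod_cast hq₀
    have h5 : (C : ℝ) < B ^ (r * T + 1) := by
      rw [← h3] at h4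
      exact lt_of_pow_lt_pow_left₀ 2 (by positivity) h4
    have h6 : (L : ℝ) ^ T < q := by
      rw [← h3, sq]
      exact h2.trans_lt (mul_lt_mul_of_pos_right h5 (by positivity))
    exact_mod_cast h6
  obtain ⟨Γ₂, h1, h2⟩ := unitB hcz hq T r₀ L B (Finset.card_le_card hS) (by omega) hLq
    (by positivity) hB' hnd (fun x hx => (hface x hx).1)
    (fun u hu hqu => hgeo _ hS u hu (by simpa [newt, support_toQ] using hint u hqu))
    (by rw [hL]; push_cast; exact Nat.lt_floor_add_one _)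
  exact schinzel_of hF (core hn hq hnd hface Γ₂ h1 h2)

end Pool.Agent.P.MP_aef18a_nt
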