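import Pool.Agent.P.MP_aef18a_nt.Face

namespace Pool.Agent.P.MP_aef18a_nt

open AddMonoidAlgebra

lemma pattern {n : ℕ} (S : Finset (Fin n → ℤ)) (B : ℕ) :
    ∃ Γ : Finset (Fin n → ℤ), 0 ∉ Γ ∧ ∀ a, (∀ c ∈ Γ, c ⬝ᵥ a ≠ 0) → ∀ I : Finset ℤ, I.card ≤ B →
      ∀ d : Fin n → ℤ, d ≠ 0 → ∃ (a' : Fin n → ℤ) (ψ χ : ℤ → ℤ), d ⬝ᵥ a' ≠ 0 ∧
        (∀ i ∈ I, ∀ j ∈ I, χ (i - j) = ψ i - ψ j) ∧
        (∀ u ∈ S, ∀ v ∈ S, χ ((u - v) ⬝ᵥ a) = (u - v) ⬝ᵥ a') := by
  classical
  let J := (Fin B × Fin B) ⊕ (S × S)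
  let val : (Fin B → ℤ) → (Fin n → ℤ) → J → ℤ := fun e a j =>
    Sum.elim (fun p : Fin B × Fin B => e p.1 - e p.2) (fun p : S × S => (p.1.1 - p.2.1) ⬝ᵥ a) j
  let P : Finset (J × J) → (Fin n → ℤ) → Prop := fun R d =>
    d ≠ 0 ∧ ∀ e' a', (∀ p ∈ R, val e' a' p.1 = val e' a' p.2) → d ⬝ᵥ a' = 0
  let ch : Finset (J × J) → (Fin n → ℤ) := fun R => if h : ∃ d, P R d then h.choose else 0
  have hch : ∀ R, (∃ d, P R d) → P R (ch R) := by
    intro R h
    simp only [ch, dif_pos h]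
    exact h.choose_spec
  refine ⟨(Finset.univ.filter (fun R => ∃ d, P R d)).image ch, ?_, ?_⟩
  · intro h
    obtain ⟨R, hR, e⟩ := Finset.mem_image.mp h
    exact (hch R (Finset.mem_filter.mp hR).2).1 e
  intro a ha I hI d hd
  obtain ⟨ι⟩ : Nonempty (I ↪ Fin B) := Function.Embedding.nonempty_of_card_le (by simpa using hI)
  let e : Fin B → ℤ := Function.extend ι Subtype.val 0
  have he : ∀ i : I, e (ι i) = i := fun i => ι.injective.extend_apply _ _ i
  let R : Finset (J × J) := Finset.univ.filter (fun p => val e a p.1 = val e a p.2)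
  have hR : ¬ ∃ d, P R d := by
    intro h
    refine ha (ch R) (Finset.mem_image.mpr ⟨R, Finset.mem_filter.mpr ⟨Finset.mem_univ _, h⟩, rfl⟩) ?_
    exact (hch R h).2 e a fun p hp => (Finset.mem_filter.mp hp).2
  have : ∃ e' a', (∀ p ∈ R, val e' a' p.1 = val e' a' p.2) ∧ d ⬝ᵥ a' ≠ 0 := by
    by_contra hc
    push Not at hc
    exact hR ⟨d, hd, hc⟩
  obtain ⟨e', a', h1, h2⟩ := this
  have h3 : ∀ j j', val e a j = val e a j' → val e' a' j = val e' a' j' := fun j j' h =>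
    h1 (j, j') (Finset.mem_filter.mpr ⟨Finset.mem_univ _, h⟩)
  let χ : ℤ → ℤ := fun k => if h : ∃ j, val e a j = k then val e' a' h.choose else 0
  have hχ : ∀ j, χ (val e a j) = val e' a' j := by
    intro j
    have h : ∃ j', val e a j' = val e a j := ⟨j, rfl⟩
    simp only [χ, dif_pos h]
    exact h3 _ _ h.choose_spec
  refine ⟨a', fun k => if h : k ∈ I then e' (ι ⟨k, h⟩) else 0, χ, h2, ?_, ?_⟩
  · intro i hi j hj
    have := hχ (Sum.inl (ι ⟨i, hi⟩, ι ⟨j, hj⟩))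
    simp only [val, Sum.elim_inl, he] at this
    simp only [dif_pos hi, dif_pos hj]
    exact this
  · intro u hu v hv
    exact hχ (Sum.inr (⟨u, hu⟩, ⟨v, hv⟩))

lemma mapDomain_eq_sum {R G H : Type*} [CommRing R] (φ : G → H) (A : AddMonoidAlgebra R G) :
    mapDomain φ A = ∑ u ∈ A.coeff.support, single (φ u) (A.coeff u) := by
  conv_lhs => rw [← sum_coeff_single A, mapDomain_sum]
  simp [Finsupp.sum]

lemma mapDomain_finsetSum {R G H ι : Type*} [CommRing R] (φ : G → H) (s : Finset ι)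
    (A : ι → AddMonoidAlgebra R G) :
    mapDomain φ (∑ i ∈ s, A i) = ∑ i ∈ s, mapDomain φ (A i) :=
  map_sum (AddMonoidHom.mk' (mapDomain φ) (mapDomain_add φ)) A s

lemma transfer {H : Type*} [AddCommGroup H] (A : AddMonoidAlgebra ℤ H) (π ψ : H → ℤ) (χ : ℤ → ℤ)
    (h : ∀ u ∈ A.coeff.support, ∀ v ∈ A.coeff.support, χ (π u - π v) = ψ u - ψ v) :
    mapDomain (fun u => (π u, ψ u)) A * rev (mapDomain (fun u => (π u, ψ u)) A) =
      mapDomain (fun k => (k, χ k)) (mapDomain π A * rev (mapDomain π A)) := by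
  rw [mapDomain_eq_sum (fun u => (π u, ψ u)), mapDomain_eq_sum π, map_sum, map_sum,
    Finset.sum_mul_sum, Finset.sum_mul_sum, mapDomain_finsetSum]
  refine Finset.sum_congr rfl fun u hu => ?_
  rw [mapDomain_finsetSum]
  refine Finset.sum_congr rfl fun v hv => ?_
  rw [rev_single, rev_single, single_mul_single, single_mul_single, mapDomain_single,
    ← sub_eq_add_neg, ← sub_eq_add_neg, h u hu v hv]
  rfl

lemma coeff_mul_rev {H : Type*} [AddCommGroup H] (A : AddMonoidAlgebra ℤ H) :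
    (A * rev A).coeff 0 = ∑ u ∈ A.coeff.support, A.coeff u ^ 2 := by
  rw [coeff_mul_of_subset A _ _ subset_rfl]
  refine Finset.sum_congr rfl fun u _ => ?_
  rw [rev_apply, coeff_mapDomain, add_zero, Finsupp.mapDomain_apply neg_injective, sq]

lemma mapDomain_ne_zero {R G H : Type*} [CommRing R] {φ : G → H} {A : AddMonoidAlgebra R G}
    (hφ : Set.InjOn φ A.coeff.support) (hA : A ≠ 0) : mapDomain φ A ≠ 0 := by
  obtain ⟨u, hu⟩ : A.coeff.support.Nonempty := by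
    rw [Finsupp.support_nonempty_iff]
    simpa using hA
  intro h
  have := Finsupp.mapDomain_apply' _ A.coeff subset_rfl hφ hu
  rw [← coeff_mapDomain, h] at this
  exact Finsupp.mem_support_iff.mp hu (by simpa using this.symm)

/-- the real linear form `u ↦ ⟨u, x⟩` -/
noncomputable def lin {n : ℕ} (x : Fin n → ℝ) : (Fin n → ℤ) → ℝ := fun u => ∑ i, (u i : ℝ) * x i

lemma lin_cast {n : ℕ} (a u : Fin n → ℤ) : lin (fun i => (a i : ℝ)) u = ((u ⬝ᵥ a : ℤ) : ℝ) := by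
  simp [lin, dotProduct]

lemma nosplit {n : ℕ} (hn : 2 ≤ n) {q : ℕ} (hq : q.Prime) {F : AddMonoidAlgebra ℤ (Fin n → ℤ)}
    (hF : F ≠ 0) (hface : ∀ x : Fin n → ℝ, x ≠ 0 → Dv q F (lin x) ∧ ¬ Dv (q * q) F (lin x)) :
    ∃ Γ : Finset (Fin n → ℤ), 0 ∉ Γ ∧ ∀ a, (∀ c ∈ Γ, c ⬝ᵥ a ≠ 0) →
      a ≠ 0 ∧ Set.InjOn (· ⬝ᵥ a) F.coeff.support ∧ ∀ A B : AddMonoidAlgebra ℤ ℤ,
        mapDomain (· ⬝ᵥ a) F = A * B →
        Dv q A (-Int.castAddHom ℝ : ℤ →+ ℝ) ∨ Dv q B (Int.castAddHom ℝ) := by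
  classical
  set S := F.coeff.support with hS
  obtain ⟨Γ, hΓ0, hΓ⟩ := pattern S (∑ u ∈ S, F.coeff u ^ 2).toNat
  let i₀ : Fin n := ⟨0, by omega⟩
  let i₁ : Fin n := ⟨1, by omega⟩
  have h01 : i₀ ≠ i₁ := by simp [i₀, i₁]
  refine ⟨insert (Pi.single i₀ 1) (Γ ∪ ((S ×ˢ S).image (fun p => p.1 - p.2)).erase 0), ?_, ?_⟩
  · simp only [Finset.mem_insert, Finset.mem_union, Finset.mem_erase, not_or]
    refine ⟨?_, hΓ0, by simp⟩
    intro h
    have := congrFun h i₀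
    simp at this
  intro a ha
  have ha0 : a i₀ ≠ 0 := by simpa using ha _ (Finset.mem_insert_self _ _)
  have hinj : Set.InjOn (· ⬝ᵥ a) S := by
    intro u hu v hv huv
    by_contra hne
    refine ha (u - v) (Finset.mem_insert_of_mem (Finset.mem_union_right _
      (Finset.mem_erase.mpr ⟨sub_ne_zero.mpr hne, Finset.mem_image.mpr
        ⟨(u, v), Finset.mem_product.mpr ⟨hu, hv⟩, rfl⟩⟩))) ?_
    rw [sub_dotProduct]
    exact sub_eq_zero.mpr huv
  have hane : a ≠ 0 := fun h => ha0 (by simp [h])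
  refine ⟨hane, hinj, fun A B hAB => ?_⟩
  by_contra hc
  push Not at hc
  obtain ⟨hA1, hB1⟩ := hc
  have hf : mapDomain (· ⬝ᵥ a) F ≠ 0 := mapDomain_ne_zero hinj hF
  have hA : A ≠ 0 := left_ne_zero_of_mul (hAB ▸ hf)
  have hB : B ≠ 0 := right_ne_zero_of_mul (hAB ▸ hf)
  have hxa : (fun i => (a i : ℝ)) ≠ 0 := fun h => ha0 (by simpa using congrFun h i₀)
  have top : Dv q (A * B) (Int.castAddHom ℝ) := by
    rw [← hAB, dv_mapDomain hinj]
    convert (hface _ hxa).1 using 1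
    ext u
    simp [lin_cast]
  have bot : Dv q (A * B) (-Int.castAddHom ℝ : ℤ →+ ℝ) := by
    rw [← hAB, dv_mapDomain hinj]
    convert (hface (-fun i => (a i : ℝ)) (neg_ne_zero.mpr hxa)).1 using 1
    ext u
    simp [lin, dotProduct]
  have hA2 := ((dv_mul_iff _ hq hA hB).mp top).resolve_right hB1
  have hB2 := ((dv_mul_iff _ hq hA hB).mp bot).resolve_left hA1
  set w := A * rev B with hw
  have w1 : Dv (q * q) w (Int.castAddHom ℝ) :=
    dv_mul _ hA (rev_ne_zero hB) hA2 ((dv_rev _).mpr hB2)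
  have w2 : ¬ Dv q w (-Int.castAddHom ℝ : ℤ →+ ℝ) := by
    rw [dv_mul_iff _ hq hA (rev_ne_zero hB), dv_rev, neg_neg]
    tauto
  have hww : w * rev w = mapDomain (· ⬝ᵥ a) F * rev (mapDomain (· ⬝ᵥ a) F) := by
    rw [hAB, hw, map_mul, map_mul, rev_rev]
    ring
  have hcard : w.coeff.support.card ≤ (∑ u ∈ S, F.coeff u ^ 2).toNat := by
    have e1 := coeff_mul_rev w
    rw [hww, coeff_mul_rev, coeff_mapDomain, Finsupp.mapDomain_support_of_injOn _ hinj,
      Finset.sum_image hinj] at e1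
    have e2 : ∑ u ∈ S, F.coeff u ^ 2 = ∑ u ∈ w.coeff.support, w.coeff u ^ 2 := by
      rw [← e1]
      refine Finset.sum_congr rfl fun u hu => ?_
      rw [Finsupp.mapDomain_apply' _ F.coeff subset_rfl hinj hu]
    rw [e2, Int.le_toNat (Finset.sum_nonneg fun _ _ => sq_nonneg _), Finset.card_eq_sum_ones,
      Nat.cast_sum]
    refine Finset.sum_le_sum fun u hu => ?_
    have := Finsupp.mem_support_iff.mp hu
    have : 0 < w.coeff u ^ 2 := by positivity
    push_cast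
    omega
  let d : Fin n → ℤ := Pi.single i₀ (a i₁) - Pi.single i₁ (a i₀)
  have hd : d ≠ 0 := by
    intro h
    have := congrFun h i₁
    simp [d, h01.symm] at this
    exact ha0 this
  have hda : d ⬝ᵥ a = 0 := by
    simp only [d, sub_dotProduct, single_dotProduct]
    ring
  obtain ⟨a', ψ, χ, h1, h2, h3⟩ := hΓ a
    (fun c hc => ha c (Finset.mem_insert_of_mem (Finset.mem_union_left _ hc))) _ hcard d hd
  have t1 := transfer w id ψ χ h2
  have t2 := transfer F (· ⬝ᵥ a) (· ⬝ᵥ a') χ (fun u hu v hv => by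
    rw [← sub_dotProduct, ← sub_dotProduct]; exact h3 u hu v hv)
  have hid : mapDomain id w = w := by
    ext1
    rw [coeff_mapDomain, Finsupp.mapDomain_id]
  rw [hid, hww, ← t2] at t1
  have inj1 : Set.InjOn (fun u : ℤ => (id u, ψ u)) w.coeff.support :=
    fun u _ v _ h => congrArg Prod.fst h
  have inj2 : Set.InjOn (fun u : Fin n → ℤ => (u ⬝ᵥ a, u ⬝ᵥ a')) F.coeff.support :=
    fun u hu v hv h => hinj hu hv (congrArg Prod.fst h)
  let ω₁ : ℤ × ℤ →+ ℝ := (Int.castAddHom ℝ).comp (AddMonoidHom.fst ℤ ℤ)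
  let ω₂ : ℤ × ℤ →+ ℝ := (Int.castAddHom ℝ).comp (AddMonoidHom.snd ℤ ℤ)
  have := rotation ω₁ ω₂ hq (mapDomain_ne_zero inj2 hF) t1 (fun s t hst => ?_)
    ((dv_mapDomain inj1 _).mpr w1)
  · rw [dv_mapDomain inj1] at this
    exact w2 fun u hu hm => (dvd_mul_right _ _).trans (this u hu hm)
  · rw [dv_mapDomain inj2, dv_mapDomain inj2]
    have hx : (fun i => s * (a i : ℝ) + t * (a' i : ℝ)) ≠ 0 := by
      intro h
      have e : lin (fun i => s * (a i : ℝ) + t * (a' i : ℝ)) d =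
          s * ((d ⬝ᵥ a : ℤ) : ℝ) + t * ((d ⬝ᵥ a' : ℤ) : ℝ) := by
        simp only [lin, dotProduct, Int.cast_sum, Int.cast_mul, Finset.mul_sum,
          ← Finset.sum_add_distrib]
        exact Finset.sum_congr rfl fun i _ => by ring
      rw [h, hda] at e
      have ht : t = 0 := by
        have : t * ((d ⬝ᵥ a' : ℤ) : ℝ) = 0 := by simpa [lin] using e.symm
        exact (mul_eq_zero.mp this).resolve_right (by exact_mod_cast h1)
      have := congrFun h i₀
      simp only [ht, zero_mul, add_zero, Pi.zero_apply, mul_eq_zero, Int.cast_eq_zero] at this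
      tauto
    have e : (⇑(s • ω₁ + t • ω₂) ∘ fun u : Fin n → ℤ => (u ⬝ᵥ a, u ⬝ᵥ a')) =
        lin (fun i => s * (a i : ℝ) + t * (a' i : ℝ)) := by
      ext u
      simp only [ω₁, ω₂, lin, dotProduct, Function.comp_apply, AddMonoidHom.add_apply,
        AddMonoidHom.smul_apply, AddMonoidHom.comp_apply, AddMonoidHom.coe_fst,
        AddMonoidHom.coe_snd, Int.coe_castAddHom, smul_eq_mul, Int.cast_sum, Int.cast_mul,
        Finset.mul_sum, ← Finset.sum_add_distrib]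
      exact Finset.sum_congr rfl fun i _ => by ring
    rw [e]
    exact hface _ hx

end Pool.Agent.P.MP_aef18a_nt
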