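import Pool.Agent.P.MP_aef18a_nt.Common
import Pool.Agent.P.MP_aef18a_nt.Height

namespace Pool.Agent.P.MP_aef18a_nt

open Polynomial LaurentPolynomial

lemma not_dvd_of_top {G : Type*} [AddCommGroup G] [UniqueSums G] (ω : G →+ ℝ)
    {F A : AddMonoidAlgebra ℚ G} (hA : A ≠ 0) (hs : A.coeff.support ⊆ F.coeff.support)
    {u₀ : G} (hu₀ : u₀ ∈ F.coeff.support) (h : ∀ u ∈ A.coeff.support, ω u < ω u₀) : ¬ F ∣ A := by
  rintro ⟨Q, rfl⟩
  obtain ⟨m₁, a1, a2⟩ := exists_top ω (left_ne_zero_of_mul hA)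
  obtain ⟨m₂, b1, b2⟩ := exists_top ω (right_ne_zero_of_mul hA)
  obtain ⟨m₃, c1, c2⟩ := exists_top (-ω : G →+ ℝ) (left_ne_zero_of_mul hA)
  obtain ⟨m₄, d1, d2⟩ := exists_top (-ω : G →+ ℝ) (right_ne_zero_of_mul hA)
  obtain ⟨u, hu, e1⟩ := lev_ne_zero_iff.mp (lev_mul ω a1 b1 ▸ mul_ne_zero a2 b2)
  obtain ⟨u', hu', e2⟩ := lev_ne_zero_iff.mp (lev_mul (-ω) c1 d1 ▸ mul_ne_zero c2 d2)
  obtain ⟨v, hv, e3⟩ := lev_ne_zero_iff.mp b2
  have := h u hu
  have := a1 u₀ hu₀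
  have := c1 u' (hs hu')
  have := d1 v hv
  simp only [AddMonoidHom.neg_apply] at *
  linarith

/-- the Laurent polynomial `∑_(u ∈ J) k u x^u` -/
noncomputable def pol {n : ℕ} (J : Finset (Fin n → ℤ)) (k : (Fin n → ℤ) → ℤ) : LP n :=
  ∑ u ∈ J, AddMonoidAlgebra.single u (k u : ℚ)

lemma pol_coeff {n : ℕ} (J : Finset (Fin n → ℤ)) (k : (Fin n → ℤ) → ℤ) (v : Fin n → ℤ) :
    (pol J k).coeff v = if v ∈ J then (k v : ℚ) else 0 := by
  classical
  simp [pol, Finsupp.finsetSum_apply, Finsupp.single_apply]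

lemma mem_pol {n : ℕ} {J : Finset (Fin n → ℤ)} {k : (Fin n → ℤ) → ℤ} {v : Fin n → ℤ} :
    v ∈ (pol J k).coeff.support ↔ v ∈ J ∧ k v ≠ 0 := by
  rw [Finsupp.mem_support_iff, pol_coeff]
  split_ifs with h <;> simp [h]

lemma ev_pol {n : ℕ} (J : Finset (Fin n → ℤ)) (k : (Fin n → ℤ) → ℤ) (a : Fin n → ℤ) (α : ℂˣ) :
    ev a α (pol J k) = ∑ u ∈ J, (k u : ℂ) * (α : ℂ) ^ (u ⬝ᵥ a) := by
  simp [pol, ev_single]

lemma toQ_eq_pol {n : ℕ} (F : AddMonoidAlgebra ℤ (Fin n → ℤ)) :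
    toQ F = pol F.coeff.support F.coeff := by
  ext v
  rw [pol_coeff, toQ, AddMonoidAlgebra.coeff_mapRingHom]
  split_ifs with h
  · rfl
  · simp [Finsupp.notMem_support_iff.mp h]

lemma support_toQ {n : ℕ} (F : AddMonoidAlgebra ℤ (Fin n → ℤ)) :
    (toQ F).coeff.support = F.coeff.support := by
  ext v
  rw [toQ_eq_pol, mem_pol]
  simp

/-- common zeros on one-parameter subgroups are torsion -/
def CZ {n : ℕ} (F : LP n) : Prop :=
  ∀ A, ¬ F ∣ A → ∃ Γ : Finset (Fin n → ℤ), 0 ∉ Γ ∧ ∀ a, a ≠ 0 → (∀ c ∈ Γ, c ⬝ᵥ a ≠ 0) →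
    ∀ α : ℂˣ, ev a α F = 0 → ev a α A = 0 → ∃ m, 0 < m ∧ (α : ℂ) ^ m = 1

lemma unitB {n : ℕ} {F : AddMonoidAlgebra ℤ (Fin n → ℤ)} (hcz : CZ (toQ F)) {q : ℕ} (hq : q.Prime)
    (T r₀ L : ℕ) (B : ℝ) (hT : F.coeff.support.card ≤ T) (hL : 0 < L) (hLq : L ^ T < q)
    (hB0 : 0 ≤ B) (hB : ∀ u, |(F.coeff u : ℝ)| ≤ B * q) (hnd : ∃ u, ¬ (q : ℤ) ∣ F.coeff u)
    (hface : ∀ x : Fin n → ℝ, x ≠ 0 → Dv q F (lin x))
    (hgeo : ∀ u ∈ F.coeff.support, ¬ (q : ℤ) ∣ F.coeff u → ∀ a : Fin n → ℤ,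
      ∀ w ∈ F.coeff.support, ∀ w' ∈ F.coeff.support, ∃ z ∈ F.coeff.support,
        w ⬝ᵥ a - w' ⬝ᵥ a ≤ r₀ * (u ⬝ᵥ a - z ⬝ᵥ a))
    (hbig : T * (T * B) ^ ((T + 1) * r₀) < L) :
    ∃ Γ₂ : Finset (Fin n → ℤ), 0 ∉ Γ₂ ∧
      ∀ a, (∀ c ∈ Γ₂, c ⬝ᵥ a ≠ 0) → a ≠ 0 → Set.InjOn (· ⬝ᵥ a) F.coeff.support →
      ∀ p : ℤ[X], toLaurent p ∣ AddMonoidAlgebra.mapDomain (· ⬝ᵥ a) F →
      ¬ (q : ℤ) ∣ p.leadingCoeff → ¬ (q : ℤ) ∣ p.coeff 0 →
      ∀ α : ℂ, aeval α p = 0 → ∃ m, 0 < m ∧ α ^ m = 1 := by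
  classical
  set S := F.coeff.support with hS
  obtain ⟨m, hm0, hmq, nn, ε, hdir⟩ := dirichlet S F.coeff hL
    ((Nat.pow_le_pow_right hL hT).trans_lt hLq)
  let ΓA : LP n → Finset (Fin n → ℤ) := fun A =>
    if h : ¬ toQ F ∣ A then (hcz A h).choose else ∅
  have ΓA0 : ∀ A, 0 ∉ ΓA A := by
    intro A
    simp only [ΓA]
    split_ifs with h
    · simp
    · exact (hcz A h).choose_spec.1
  refine ⟨ΓA (pol S ε) ∪ S.powerset.biUnion fun J => ΓA (pol J F.coeff), by simp [ΓA0], ?_⟩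
  intro a hΓ ha hinj p hp hp1 hp0 α hα
  by_contra htor
  have hqZ : Prime (q : ℤ) := Nat.prime_iff_prime_int.mp hq
  have hq0 : (0 : ℤ) < q := by exact_mod_cast hq.pos
  have hα0 : α ≠ 0 := by
    rintro rfl
    rw [← coeff_zero_eq_aeval_zero'] at hα
    apply hp0
    have : p.coeff 0 = 0 := by simpa using hα
    simp [this]
  let α' : ℂˣ := Units.mk0 α hα0
  have hevF : ev a α' (toQ F) = 0 := by
    obtain ⟨r, hr⟩ := hp
    rw [ev, RingHom.comp_apply, specHom_apply, spec_toQ, hr, map_mul, map_mul, toQ, map_toLaurent,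
      eval₂_toLaurent, ← aeval_def, ← algebraMap_int_eq, aeval_map_algebraMap]
    simp [α', hα]
  have key : ∀ A, ΓA A ⊆ ΓA (pol S ε) ∪ S.powerset.biUnion (fun J => ΓA (pol J F.coeff)) →
      ¬ toQ F ∣ A → ev a α' A ≠ 0 := by
    intro A h1 h2 h3
    apply htor
    refine (hcz A h2).choose_spec.2 a ha (fun c hc => hΓ c (h1 ?_)) α' hevF h3
    simp only [ΓA, dif_pos h2]
    exact hc
  obtain ⟨u₁, hu₁⟩ := hnd
  have hu₁S : u₁ ∈ S := Finsupp.mem_support_iff.mpr fun h => hu₁ (by simp [h])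
  obtain ⟨ulo, hlo, hlo'⟩ := Finset.exists_min_image S (· ⬝ᵥ a) ⟨u₁, hu₁S⟩
  obtain ⟨uhi, hhi, hhi'⟩ := Finset.exists_max_image S (· ⬝ᵥ a) ⟨u₁, hu₁S⟩
  obtain ⟨uk, hk, hk'⟩ := Finset.exists_min_image (S.filter fun u => ¬ (q : ℤ) ∣ F.coeff u)
    (· ⬝ᵥ a) ⟨u₁, Finset.mem_filter.mpr ⟨hu₁S, hu₁⟩⟩
  obtain ⟨hkS, hkq⟩ := Finset.mem_filter.mp hk
  have hxa : (fun i => (a i : ℝ)) ≠ 0 := by
    intro h
    apply ha
    ext i
    simpa using congrFun h i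
  have hqhi : (q : ℤ) ∣ F.coeff uhi := hface _ hxa uhi hhi fun u hu => by
    rw [lin_cast, lin_cast]; exact_mod_cast hhi' u hu
  have hqlo : (q : ℤ) ∣ F.coeff ulo := hface _ (neg_ne_zero.mpr hxa) ulo hlo fun u hu => by
    have e : ∀ u, lin (-fun i => (a i : ℝ)) u = -((u ⬝ᵥ a : ℤ) : ℝ) := by
      intro u; simp [lin, dotProduct]
    rw [e, e, neg_le_neg_iff]; exact_mod_cast hlo' u hu
  have hlok : ulo ⬝ᵥ a < uk ⬝ᵥ a :=
    lt_of_le_of_ne (hlo' uk hkS) fun h => hkq (hinj hlo hkS h ▸ hqlo)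
  obtain ⟨w, g, hw1, hw2, hw3, hw4⟩ := exists_gap (S.image (· ⬝ᵥ a)) (ulo ⬝ᵥ a) T (uk ⬝ᵥ a) hlok.le
    ((Finset.card_filter_le _ _).trans (Finset.card_image_le.trans hT))
  have hg : 0 < g := by
    rcases Nat.eq_zero_or_pos g with h | h
    · rw [h] at hw4; simp at hw4; omega
    · exact h
  obtain ⟨D, hD⟩ := Int.eq_ofNat_of_zero_le (sub_nonneg.mpr (hhi' ulo hlo))
  have hr : D ≤ g * ((T + 1) * r₀) := by
    obtain ⟨z, hz, hz'⟩ := hgeo uk hkS hkq a uhi hhi ulo hlo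
    have h1 := hlo' z hz
    have h2 : (r₀ : ℤ) * (uk ⬝ᵥ a - z ⬝ᵥ a) ≤ r₀ * (g * (T + 1)) :=
      mul_le_mul_of_nonneg_left (by omega) (Int.natCast_nonneg _)
    have : (D : ℤ) ≤ g * ((T + 1) * r₀) := by nlinarith
    exact_mod_cast this
  let ω : (Fin n → ℤ) →+ ℝ := (Int.castAddHom ℝ).comp
    (AddMonoidHom.mk' (fun u : Fin n → ℤ => u ⬝ᵥ a) fun u v => add_dotProduct u v a)
  have hω : ∀ u, ω u = ((u ⬝ᵥ a : ℤ) : ℝ) := fun _ => rfl
  have k1 : ev a α' (pol (S.filter fun u => u ⬝ᵥ a ≤ w) F.coeff) ≠ 0 := by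
    refine key _ ((Finset.subset_biUnion_of_mem (fun J => ΓA (pol J F.coeff))
      (Finset.mem_powerset.mpr (Finset.filter_subset _ _))).trans Finset.subset_union_right)
      (not_dvd_of_top ω ?_ ?_ (u₀ := uk) (support_toQ F ▸ hkS) ?_)
    · intro h
      have : ulo ∈ (pol (S.filter fun u => u ⬝ᵥ a ≤ w) F.coeff).coeff.support :=
        mem_pol.mpr ⟨Finset.mem_filter.mpr ⟨hlo, hw1⟩, Finsupp.mem_support_iff.mp hlo⟩
      simp [h] at this
    · intro u hu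
      rw [support_toQ]
      exact (Finset.mem_filter.mp (mem_pol.mp hu).1).1
    · intro u hu
      have := (Finset.mem_filter.mp (mem_pol.mp hu).1).2
      rw [hω, hω]
      exact_mod_cast (by omega : u ⬝ᵥ a < uk ⬝ᵥ a)
  have k2 : ev a α' (pol S ε) ≠ 0 := by
    refine key _ Finset.subset_union_left
      (not_dvd_of_top ω ?_ ?_ (u₀ := uhi) (support_toQ F ▸ hhi) ?_)
    · intro h
      have : uk ∈ (pol S ε).coeff.support := by
        refine mem_pol.mpr ⟨hkS, fun h0 => ?_⟩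
        have := (hdir uk hkS).1
        rw [h0, add_zero] at this
        rcases hqZ.dvd_or_dvd (⟨_, this⟩ : (q : ℤ) ∣ m * F.coeff uk) with h' | h'
        · exact absurd (Int.le_of_dvd hm0 h') (by omega)
        · exact hkq h'
      simp [h] at this
    · intro u hu
      rw [support_toQ]
      exact (mem_pol.mp hu).1
    · intro u hu
      obtain ⟨h1, h2⟩ := mem_pol.mp hu
      rw [hω, hω]
      have hne : u ≠ uhi := by
        rintro rfl
        obtain ⟨h3, h4⟩ := hdir u h1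
        have h5 : (q : ℤ) ∣ ε u := by
          have : ε u = m * F.coeff u - q * nn u := by linarith
          rw [this]
          exact dvd_sub (hqhi.mul_left _) (dvd_mul_right _ _)
        have h6 := Int.le_of_dvd (abs_pos.mpr h2) ((dvd_abs _ _).mpr h5)
        have : (1 : ℤ) ≤ L := by exact_mod_cast hL
        nlinarith
      exact_mod_cast lt_of_le_of_ne (hhi' u h1) fun h => hne (hinj h1 hhi h)
  rw [toQ_eq_pol, ev_pol] at hevF
  rw [ev_pol] at k1 k2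
  simp only [α', Units.val_mk0] at hevF k1 k2
  have hp00 : p ≠ 0 := by rintro rfl; simp at hp0
  have hint : IsIntegral ℚ α := by
    refine IsAlgebraic.isIntegral ⟨p.map (algebraMap ℤ ℚ), ?_, by rwa [aeval_map_algebraMap]⟩
    exact (Polynomial.map_ne_zero_iff (RingHom.injective_int _)).mpr hp00
  have : FiniteDimensional ℚ (IntermediateField.adjoin ℚ {α}) :=
    IntermediateField.adjoin.finiteDimensional hint
  have : NumberField (IntermediateField.adjoin ℚ {α}) := {}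
  let β := IntermediateField.AdjoinSimple.gen ℚ α
  let ι := algebraMap (IntermediateField.adjoin ℚ {α}) ℂ
  have hι : ι β = α := rfl
  have tr : ∀ (J : Finset (Fin n → ℤ)) (k : (Fin n → ℤ) → ℤ),
      ι (∑ u ∈ J, (k u : IntermediateField.adjoin ℚ {α}) * β ^ (u ⬝ᵥ a)) =
        ∑ u ∈ J, (k u : ℂ) * α ^ (u ⬝ᵥ a) := by
    intro J k
    simp only [map_sum, map_mul, map_intCast, map_zpow₀, hι]
  have hβ : β ≠ 0 := fun h => hα0 (by rw [← hι, h, map_zero])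
  have hpβ : aeval β p = 0 := by
    apply ι.injective
    rw [map_zero, ← hα]
    exact (aeval_algHom_apply ι.toIntAlgHom β p).symm
  have hc' : ∀ u ∈ S, u ⬝ᵥ a ≤ w → F.coeff u = q * (F.coeff u / q) := by
    intro u hu h
    refine (Int.mul_ediv_cancel' ?_).symm
    by_contra hc
    have := hk' u (Finset.mem_filter.mpr ⟨hu, hc⟩)
    omega
  have hLR : (0 : ℝ) < L := by exact_mod_cast hL
  have := height_key S T hT (· ⬝ᵥ a) F.coeff (fun u => F.coeff u / q) nn ε hq.pos m hβ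
    (fun v hv h => nonarch_unit (Height.AdmissibleAbsValues.isNonarchimedean v hv) hq h hpβ hp1 hp0)
    (ι.injective (by rw [tr, hevF, map_zero])) w (ulo ⬝ᵥ a) g D ((T + 1) * r₀)
    (fun u hu => hw3 _ (Finset.mem_image_of_mem _ hu)) hc' hB0 (η := 1 / L) (by positivity)
    (fun u _ => hB u) (fun u hu => ⟨hlo' u hu, by have := hhi' u hu; omega⟩)
    (fun u hu => ⟨(hdir u hu).1, by
      rw [one_div, inv_mul_eq_div, le_div_iff₀ hLR]
      exact_mod_cast (hdir u hu).2.le⟩)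
    (fun h => k1 (by
      have h1 := congrArg ι h
      rw [tr, map_zero] at h1
      rw [← mul_zero (q : ℂ), ← h1, Finset.mul_sum]
      refine Finset.sum_congr rfl fun u hu => ?_
      obtain ⟨h2, h3⟩ := Finset.mem_filter.mp hu
      rw [← mul_assoc]
      congr 1
      exact_mod_cast congrArg (Int.cast : ℤ → ℂ) (hc' u h2 h3)))
    (fun h => k2 (by
      have h1 := congrArg ι h
      rw [tr, map_zero] at h1
      have : ∑ u ∈ S, (ε u : ℂ) * α ^ (u ⬝ᵥ a) = m * ∑ u ∈ S, (F.coeff u : ℂ) * α ^ (u ⬝ᵥ a) -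
          q * ∑ u ∈ S, (nn u : ℂ) * α ^ (u ⬝ᵥ a) := by
        rw [Finset.mul_sum, Finset.mul_sum, ← Finset.sum_sub_distrib]
        refine Finset.sum_congr rfl fun u hu => ?_
        have h2 : (m : ℂ) * F.coeff u = q * nn u + ε u := by
          exact_mod_cast congrArg (Int.cast : ℤ → ℂ) (hdir u hu).1
        linear_combination (-α ^ (u ⬝ᵥ a)) * h2
      rw [this, hevF, h1]
      simp)) hr
  rw [mul_one_div, div_mul_eq_mul_div, le_div_iff₀ hLR, one_mul] at this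
  exact absurd hbig (not_lt.mpr this)

lemma unitA {n : ℕ} {F : AddMonoidAlgebra ℤ (Fin n → ℤ)} {q : ℕ} (hq : q.Prime)
    (hu : ∃! u, ¬ (q : ℤ) ∣ F.coeff u) (a : Fin n → ℤ) (p : ℤ[X])
    (hp : toLaurent p ∣ AddMonoidAlgebra.mapDomain (· ⬝ᵥ a) F)
    (hp1 : ¬ (q : ℤ) ∣ p.leadingCoeff) (hp0 : ¬ (q : ℤ) ∣ p.coeff 0) (α : ℂ)
    (hα : aeval α p = 0) : False := by
  classical
  have : Fact q.Prime := ⟨hq⟩
  obtain ⟨u₀, hu₀, hu₁⟩ := hu
  let φ := Int.castRingHom (ZMod q)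
  have hφ : ∀ k : ℤ, φ k = 0 ↔ (q : ℤ) ∣ k := fun k => ZMod.intCast_zmod_eq_zero_iff_dvd k q
  have e1 : ∀ p : ℤ[X], AddMonoidAlgebra.mapRingHom ℤ φ (toLaurent p) = toLaurent (p.map φ) := by
    intro p
    induction p using Polynomial.induction_on' with
    | add p q hp hq => simp only [map_add, Polynomial.map_add, hp, hq]
    | monomial n a =>
      rw [Polynomial.map_monomial, toLaurent_C_mul_T, toLaurent_C_mul_T, ← single_eq_C_mul_T,
        ← single_eq_C_mul_T, AddMonoidAlgebra.mapRingHom_single]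
  have e2 : AddMonoidAlgebra.mapRingHom ℤ φ (AddMonoidAlgebra.mapDomain (· ⬝ᵥ a) F) =
      AddMonoidAlgebra.single (u₀ ⬝ᵥ a) (φ (F.coeff u₀)) := by
    rw [mapDomain_eq_sum, map_sum, Finset.sum_eq_single u₀, AddMonoidAlgebra.mapRingHom_single]
    · intro u _ hne
      rw [AddMonoidAlgebra.mapRingHom_single, AddMonoidAlgebra.single_eq_zero, hφ]
      by_contra h
      exact hne (hu₁ u h)
    · intro h
      simp [Finsupp.notMem_support_iff.mp h]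
  have h1 := map_dvd (AddMonoidAlgebra.mapRingHom ℤ φ) hp
  rw [e1, e2, single_eq_C_mul_T] at h1
  have hunit : IsUnit (toLaurent (p.map φ)) := isUnit_of_dvd_unit h1
    (((IsUnit.mk0 _ fun h => hu₀ ((hφ _).mp h)).map LaurentPolynomial.C).mul (isUnit_T _))
  obtain ⟨r, hr⟩ := hunit.exists_right_inv
  obtain ⟨k, r', hr'⟩ := exists_T_pow r
  have h2 : p.map φ * r' = X ^ k := by
    apply toLaurent_injective
    rw [map_mul, hr', ← mul_assoc, hr, one_mul, toLaurent_X_pow]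
  have h3 : IsUnit (p.map φ) := by
    have hc : IsCoprime (p.map φ) (X ^ k) := by
      refine IsCoprime.pow_right (((prime_X).coprime_iff_not_dvd).mpr ?_).symm
      rw [X_dvd_iff, coeff_map, hφ]
      exact hp0
    exact hc.isUnit_of_dvd ⟨r', h2.symm⟩
  have h4 : p.natDegree = 0 := by
    rw [← natDegree_map_of_leadingCoeff_ne_zero φ fun h => hp1 ((hφ _).mp h)]
    exact natDegree_eq_zero_of_isUnit h3
  rw [eq_C_of_natDegree_eq_zero h4, aeval_C] at hα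
  apply hp0
  have : p.coeff 0 = 0 := by simpa using hα
  simp [this]

end Pool.Agent.P.MP_aef18a_nt
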